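import Mathlib

/-! Alternating matrices over a principal ideal domain are sums of decomposable ones. -/

set_option autoImplicit false
set_option linter.all false

open Matrix

namespace Pool.Agent.Y109.PI

/-- alternating matrices -/
def Alt {I R : Type*} [Neg R] [Zero R] (b : Matrix I I R) : Prop :=
  (∀ u, b u u = 0) ∧ ∀ u v, b u v = - b v u

/-- the decomposable alternating matrix `e ∧ f` -/
def wdg {I R : Type*} [Mul R] [Sub R] (e f : I → R) : Matrix I I R :=
  Matrix.of fun u v => e u * f v - f u * e v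

section

variable {R K : Type*} [CommRing R] [IsDomain R] [IsPrincipalIdealRing R] [Field K] [Algebra R K]
  {I : Type*} [Fintype I] [DecidableEq I]

omit [IsDomain R] [IsPrincipalIdealRing R] [Fintype I] [DecidableEq I] in
theorem alt_wdg (e f : I → R) : Alt (wdg e f) := by
  constructor
  · intro u; simp only [wdg, Matrix.of_apply]; ring
  · intro u v; simp only [wdg, Matrix.of_apply]; ring

omit [IsDomain R] [IsPrincipalIdealRing R] [Fintype I] [DecidableEq I] in
theorem Alt.sub' {b c : Matrix I I R} (hb : Alt b) (hc : Alt c) : Alt (b - c) := by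
  constructor
  · intro u; rw [Matrix.sub_apply, hb.1, hc.1, sub_zero]
  · intro u v; rw [Matrix.sub_apply, Matrix.sub_apply, hb.2 u v, hc.2 u v]; ring

/-- a nonzero vector is a multiple of a unimodular one -/
theorem unimod (φ : I → R) (hφ : φ ≠ 0) : ∃ (d : R) (ψ y : I → R), d ≠ 0 ∧ (∀ u, φ u = d * ψ u) ∧
    ψ ⬝ᵥ y = 1 := by
  obtain ⟨d, hd⟩ := (IsPrincipalIdealRing.principal (Ideal.span (Set.range φ))).principal
  have hmem : ∀ u, φ u ∈ Submodule.span R {d} := fun u => by
    rw [← hd]; exact Ideal.subset_span ⟨u, rfl⟩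
  have h1 : ∀ u, ∃ c, φ u = d * c := fun u => by
    obtain ⟨c, hc⟩ := Submodule.mem_span_singleton.1 (hmem u)
    exact ⟨c, by rw [← hc, smul_eq_mul, mul_comm]⟩
  choose ψ hψ using h1
  have hd0 : d ≠ 0 := by
    rintro rfl
    apply hφ
    funext u
    rw [hψ u, zero_mul]; rfl
  have h2 : d ∈ Ideal.span (Set.range φ) := by
    rw [hd]; exact Submodule.mem_span_singleton_self d
  obtain ⟨y, hy⟩ := (Ideal.mem_span_range_iff_exists_fun (R := R) (x := d) (v := φ)).1 h2
  refine ⟨d, ψ, y, hd0, hψ, ?_⟩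
  have h3 : d * (ψ ⬝ᵥ y) = d * 1 := by
    rw [mul_one]
    conv_rhs => rw [← hy]
    rw [dotProduct, Finset.mul_sum]
    refine Finset.sum_congr rfl fun u _ => ?_
    rw [hψ u]; ring
  exact mul_left_cancel₀ hd0 h3

omit [IsDomain R] [IsPrincipalIdealRing R] [DecidableEq I] in
theorem alt_dot {b : Matrix I I R} (hb : Alt b) (x y : I → R) : x ⬝ᵥ (b *ᵥ y) = - (y ⬝ᵥ (b *ᵥ x)) := by
  simp only [dotProduct, mulVec, Finset.mul_sum]
  rw [Finset.sum_comm, ← Finset.sum_neg_distrib]
  refine Finset.sum_congr rfl fun u _ => ?_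
  rw [← Finset.sum_neg_distrib]
  refine Finset.sum_congr rfl fun v _ => ?_
  rw [hb.2 v u]; ring

omit [IsDomain R] [IsPrincipalIdealRing R] [DecidableEq I] in
theorem alt_dot_self {b : Matrix I I R} (hb : Alt b) (x : I → R) : x ⬝ᵥ (b *ᵥ x) = 0 := by
  simp only [dotProduct, mulVec, Finset.mul_sum]
  rw [← Finset.sum_product']
  refine Finset.sum_involution (fun q _ => (q.2, q.1)) ?_ ?_ ?_ ?_
  · rintro ⟨i, j⟩ _
    simp only
    rw [hb.2 j i]
    ring
  · rintro ⟨i, j⟩ _ h h'
    simp only [Prod.mk.injEq] at h'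
    apply h
    simp only
    rw [h'.1, hb.1, zero_mul, mul_zero]
  · intro a _; simp
  · intro a _; rfl

/-- one step of the reduction lowers the rank by two -/
theorem step_rank (hinj : Function.Injective (algebraMap R K)) (b : Matrix I I R) (hb : Alt b) (hb0 : b ≠ 0) :
    ∃ e f : I → R, ((b - wdg e f).map (algebraMap R K)).rank + 2 ≤ (b.map (algebraMap R K)).rank := by
  classical
  obtain ⟨u0, hu0⟩ : ∃ u, b u ≠ 0 := by
    by_contra h
    push Not at h
    exact hb0 (funext h)
  obtain ⟨d, ψ, y, hd, hψ, hy⟩ := unimod (b u0) hu0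
  let x : I → R := Pi.single u0 1
  -- e = - b(y, .), f = ψ
  let e : I → R := b *ᵥ y
  have hbx : ∀ v, (b *ᵥ x) v = - (d * ψ v) := by
    intro v
    simp only [x, mulVec_single_one, Matrix.col_apply]
    rw [hb.2 v u0, hψ v]
  refine ⟨e, ψ, ?_⟩
  set b' := b - wdg e ψ with hb'
  have hxψ : ψ u0 = 0 := by
    have h := hψ u0
    rw [hb.1] at h
    exact (mul_eq_zero.1 h.symm).resolve_left hd
  have hw : ∀ (a : I → R) v, (wdg e ψ *ᵥ a) v = e v * (ψ ⬝ᵥ a) - ψ v * (e ⬝ᵥ a) := by
    intro a v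
    simp only [mulVec, dotProduct, wdg, Matrix.of_apply, Finset.mul_sum, ← Finset.sum_sub_distrib]
    refine Finset.sum_congr rfl fun w _ => ?_
    ring
  have hex : e ⬝ᵥ x = d := by
    have h1 : e ⬝ᵥ x = x ⬝ᵥ (b *ᵥ y) := dotProduct_comm _ _
    rw [h1, alt_dot hb, dotProduct]
    have h2 : ∑ i, y i * (b *ᵥ x) i = - (d * (ψ ⬝ᵥ y)) := by
      rw [dotProduct, Finset.mul_sum, ← Finset.sum_neg_distrib]
      refine Finset.sum_congr rfl fun i _ => ?_
      rw [hbx i]; ring
    rw [h2, hy]; ring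
  have hψx : ψ ⬝ᵥ x = 0 := by simp [x, hxψ]
  have hey : e ⬝ᵥ y = 0 := by
    rw [dotProduct_comm]; exact alt_dot_self hb y
  -- x and y in the radical of b'
  have hx' : b' *ᵥ x = 0 := by
    funext v
    rw [hb', Matrix.sub_mulVec, Pi.sub_apply, hw, hbx, hψx, hex, Pi.zero_apply]; ring
  have hy' : b' *ᵥ y = 0 := by
    funext v
    rw [hb', Matrix.sub_mulVec, Pi.sub_apply, hw, hy, hey, Pi.zero_apply]
    change e v - _ = 0
    ring
  -- pass to the field
  set φ := algebraMap R K
  set B := b.map φ with hB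
  set B' := b'.map φ with hB'
  let X : I → K := fun i => φ (x i)
  let Y : I → K := fun i => φ (y i)
  have hmap : ∀ (c : Matrix I I R) (a : I → R), (c.map φ) *ᵥ (fun i => φ (a i)) = fun i => φ ((c *ᵥ a) i) := by
    intro c a
    funext i
    simp only [mulVec, dotProduct, Matrix.map_apply, map_sum, map_mul]
  have hX' : B' *ᵥ X = 0 := by rw [hB', hmap, hx']; funext i; simp
  have hY' : B' *ᵥ Y = 0 := by rw [hB', hmap, hy']; funext i; simp
  have hXY : Y ⬝ᵥ (B *ᵥ X) ≠ 0 := by
    rw [hB, hmap]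
    have h1 : Y ⬝ᵥ (fun i => φ ((b *ᵥ x) i)) = φ (y ⬝ᵥ (b *ᵥ x)) := by
      simp only [Y, dotProduct, map_sum, map_mul]
    rw [h1]
    have h2 : y ⬝ᵥ (b *ᵥ x) = - d := by
      rw [← hex, dotProduct_comm e x, alt_dot hb x y, neg_neg]
    rw [h2, map_neg, neg_ne_zero]
    exact fun h => hd (hinj (by rw [h, map_zero]))
  have hBalt : Alt B := ⟨fun u => by rw [hB, Matrix.map_apply, hb.1, map_zero],
    fun u v => by rw [hB, Matrix.map_apply, Matrix.map_apply, hb.2 u v, map_neg]⟩
  have hkerle : LinearMap.ker B.mulVecLin ≤ LinearMap.ker B'.mulVecLin := by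
    intro a ha
    rw [LinearMap.mem_ker, Matrix.mulVecLin_apply] at ha ⊢
    have hB'2 : B' = B - wdg (fun i => φ (e i)) (fun i => φ (ψ i)) := by
      ext u v
      simp only [hB', hB, hb', Matrix.map_apply, Matrix.sub_apply, wdg, Matrix.of_apply, map_sub, map_mul]
    have hE : (fun i => φ (e i)) = B *ᵥ Y := by rw [hB, hmap]
    have hΨ : ∀ i, φ d * φ (ψ i) = - (B *ᵥ X) i := by
      intro i
      rw [hB, hmap]
      simp only
      rw [hbx i, map_neg, map_mul, neg_neg]
    have hEa : (fun i => φ (e i)) ⬝ᵥ a = 0 := by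
      rw [hE, dotProduct_comm, alt_dot hBalt a Y, ha, dotProduct_zero, neg_zero]
    have hφd : φ d ≠ 0 := fun h => hd (hinj (by rw [h, map_zero]))
    have hΨa : (fun i => φ (ψ i)) ⬝ᵥ a = 0 := by
      have h1 : φ d * ((fun i => φ (ψ i)) ⬝ᵥ a) = 0 := by
        rw [dotProduct, Finset.mul_sum]
        have h2 : ∑ i, φ d * (φ (ψ i) * a i) = - ((B *ᵥ X) ⬝ᵥ a) := by
          rw [dotProduct, ← Finset.sum_neg_distrib]
          refine Finset.sum_congr rfl fun i _ => ?_
          rw [← mul_assoc, hΨ i]; ring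
        rw [h2, dotProduct_comm, alt_dot hBalt a X, ha, dotProduct_zero, neg_zero, neg_zero]
      exact (mul_eq_zero.1 h1).resolve_left hφd
    rw [hB'2, Matrix.sub_mulVec, ha, zero_sub, neg_eq_zero]
    funext v
    have h3 : (wdg (fun i => φ (e i)) (fun i => φ (ψ i)) *ᵥ a) v =
        φ (e v) * ((fun i => φ (ψ i)) ⬝ᵥ a) - φ (ψ v) * ((fun i => φ (e i)) ⬝ᵥ a) := by
      simp only [mulVec, dotProduct, wdg, Matrix.of_apply, Finset.mul_sum, ← Finset.sum_sub_distrib]
      refine Finset.sum_congr rfl fun w _ => ?_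
      ring
    rw [h3, hEa, hΨa]; simp
  -- dimension count
  have hli : LinearIndependent K ![X, Y] := by
    rw [LinearIndependent.pair_iff]
    intro s t hst
    have h1 : Y ⬝ᵥ (B *ᵥ (s • X + t • Y)) = 0 := by rw [hst, mulVec_zero, dotProduct_zero]
    rw [mulVec_add, mulVec_smul, mulVec_smul, dotProduct_add, dotProduct_smul, dotProduct_smul,
      alt_dot_self hBalt Y, smul_zero, add_zero, smul_eq_mul] at h1
    have hs : s = 0 := (mul_eq_zero.1 h1).resolve_right hXY
    have h2 : X ⬝ᵥ (B *ᵥ (s • X + t • Y)) = 0 := by rw [hst, mulVec_zero, dotProduct_zero]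
    rw [mulVec_add, mulVec_smul, mulVec_smul, dotProduct_add, dotProduct_smul, dotProduct_smul,
      alt_dot_self hBalt X, smul_zero, zero_add, smul_eq_mul, alt_dot hBalt X Y] at h2
    exact ⟨hs, (mul_eq_zero.1 h2).resolve_right (neg_ne_zero.2 hXY)⟩
  let W : Submodule K (I → K) := Submodule.span K (Set.range ![X, Y])
  have hW : Module.finrank K W = 2 := by
    rw [finrank_span_eq_card hli, Fintype.card_fin]
  have hdisj : LinearMap.ker B.mulVecLin ⊓ W = ⊥ := by
    rw [Submodule.eq_bot_iff]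
    intro a ha
    obtain ⟨ha1, ha2⟩ := Submodule.mem_inf.1 ha
    rw [LinearMap.mem_ker, Matrix.mulVecLin_apply] at ha1
    have h3 : a ∈ Submodule.span K {X, Y} := by
      have : Set.range ![X, Y] = {X, Y} := by
        simp [Set.pair_comm]
      rw [← this]; exact ha2
    obtain ⟨s, t, hst⟩ := Submodule.mem_span_pair.1 h3
    have h1 : Y ⬝ᵥ (B *ᵥ (s • X + t • Y)) = 0 := by rw [hst, ha1, dotProduct_zero]
    rw [mulVec_add, mulVec_smul, mulVec_smul, dotProduct_add, dotProduct_smul, dotProduct_smul,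
      alt_dot_self hBalt Y, smul_zero, add_zero, smul_eq_mul] at h1
    have hs : s = 0 := (mul_eq_zero.1 h1).resolve_right hXY
    have h2 : X ⬝ᵥ (B *ᵥ (s • X + t • Y)) = 0 := by rw [hst, ha1, dotProduct_zero]
    rw [mulVec_add, mulVec_smul, mulVec_smul, dotProduct_add, dotProduct_smul, dotProduct_smul,
      alt_dot_self hBalt X, smul_zero, zero_add, smul_eq_mul, alt_dot hBalt X Y] at h2
    have ht : t = 0 := (mul_eq_zero.1 h2).resolve_right (neg_ne_zero.2 hXY)
    rw [← hst, hs, ht, zero_smul, zero_smul, add_zero]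
  have hWle : W ≤ LinearMap.ker B'.mulVecLin := by
    refine Submodule.span_le.2 ?_
    rintro a ⟨i, rfl⟩
    fin_cases i
    · exact hX'
    · exact hY'
  have h4 := Submodule.finrank_sup_add_finrank_inf_eq (LinearMap.ker B.mulVecLin) W
  rw [hdisj, finrank_bot, add_zero, hW] at h4
  have h5 : Module.finrank K ↥(LinearMap.ker B.mulVecLin ⊔ W) ≤ Module.finrank K (LinearMap.ker B'.mulVecLin) :=
    Submodule.finrank_mono (sup_le hkerle hWle)
  have h6 := LinearMap.finrank_range_add_finrank_ker B.mulVecLin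
  have h7 := LinearMap.finrank_range_add_finrank_ker B'.mulVecLin
  rw [Matrix.rank, Matrix.rank]
  omega

/-- **An alternating matrix of rank at most `2 s + 1` is a sum of `s` decomposable ones.** -/
theorem decomp (hinj : Function.Injective (algebraMap R K)) : ∀ (s : ℕ) (b : Matrix I I R), Alt b →
    (b.map (algebraMap R K)).rank ≤ 2 * s + 1 → ∃ e f : Fin s → I → R, b = ∑ i, wdg (e i) (f i) := by
  intro s
  induction s with
  | zero =>
    intro b hb hr
    refine ⟨Fin.elim0, Fin.elim0, ?_⟩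
    rw [Finset.univ_eq_empty, Finset.sum_empty]
    by_contra h0
    obtain ⟨e, f, h⟩ := step_rank hinj b hb h0
    omega
  | succ s ih =>
    intro b hb hr
    by_cases h0 : b = 0
    · refine ⟨0, 0, ?_⟩
      rw [h0]
      ext u v
      simp [wdg, Matrix.sum_apply]
    · obtain ⟨e, f, h⟩ := step_rank hinj b hb h0
      obtain ⟨e', f', h'⟩ := ih (b - wdg e f) (hb.sub' (alt_wdg e f)) (by omega)
      refine ⟨Fin.cons e e', Fin.cons f f', ?_⟩
      rw [Fin.sum_univ_succ]
      simp only [Fin.cons_zero, Fin.cons_succ]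
      rw [← h']
      abel

end

end Pool.Agent.Y109.PI
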