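import Mathlib
import Pool.Agent.H47.L.R_seed8.Y109.PI.Mat

/-! Nondegenerate translates of an alternating matrix. -/

set_option autoImplicit false
set_option linter.all false

open Matrix

namespace Pool.Agent.Y109.PI

/-- over a field with more than `g` elements some translate `b + c j` is nondegenerate -/
theorem exists_shift_field {F : Type*} [Field F] [Fintype F] {I : Type*} [Fintype I] [DecidableEq I]
    (g : ℕ) (hI : Fintype.card I = 2 * g) (hF : g < Fintype.card F) (b j : Matrix I I F) (hb : Alt b)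
    (hj : Alt j) (hdet : j.det ≠ 0) : ∃ c : F, (b + c • j).det ≠ 0 := by
  classical
  by_contra hcon
  push Not at hcon
  -- kernel vectors
  have h1 : ∀ c : F, ∃ v : I → F, v ≠ 0 ∧ (b + c • j) *ᵥ v = 0 := fun c =>
    Matrix.exists_mulVec_eq_zero_iff.2 (hcon c)
  choose v hv0 hv using h1
  have hbv : ∀ c, b *ᵥ v c = - (c • (j *ᵥ v c)) := by
    intro c
    have h := hv c
    rw [Matrix.add_mulVec, Matrix.smul_mulVec] at h
    exact eq_neg_of_add_eq_zero_left h
  -- orthogonality
  have hort : ∀ c c', v c ⬝ᵥ (j *ᵥ v c') = 0 := by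
    intro c c'
    by_cases hcc : c = c'
    · subst hcc; exact alt_dot_self hj _
    · have e1 : v c ⬝ᵥ (b *ᵥ v c') = - (v c' ⬝ᵥ (b *ᵥ v c)) := alt_dot hb _ _
      rw [hbv, hbv, dotProduct_neg, dotProduct_neg, dotProduct_smul, dotProduct_smul, smul_eq_mul,
        smul_eq_mul, alt_dot hj (v c') (v c)] at e1
      have e2 : (c' - c) * (v c ⬝ᵥ (j *ᵥ v c')) = 0 := by linear_combination -e1
      exact (mul_eq_zero.1 e2).resolve_left (sub_ne_zero.2 (Ne.symm hcc))
  -- eigenvectors
  have hju : IsUnit j.det := isUnit_iff_ne_zero.2 hdet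
  let T : Module.End F (I → F) := Matrix.toLin' (- (j⁻¹ * b))
  have heig : ∀ c, T.HasEigenvector c (v c) := by
    intro c
    rw [Module.End.hasEigenvector_iff, Module.End.mem_eigenspace_iff]
    refine ⟨?_, hv0 c⟩
    simp only [T, Matrix.toLin'_apply, Matrix.neg_mulVec]
    rw [← Matrix.mulVec_mulVec, hbv, Matrix.mulVec_neg, neg_neg, Matrix.mulVec_smul, Matrix.mulVec_mulVec,
      Matrix.nonsing_inv_mul _ hju, Matrix.one_mulVec]
  have hli : LinearIndependent F v := by
    have h2 := Module.End.eigenvectors_linearIndependent' T (fun c : F => c) Function.injective_id v heig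
    exact h2
  -- dimension
  let U : Submodule F (I → F) := Submodule.span F (Set.range v)
  have hU : Module.finrank F U = Fintype.card F := finrank_span_eq_card hli
  let J : (I → F) →ₗ[F] (I → F) := Matrix.toLin' j
  have hJinj : Function.Injective J := by
    have : Function.Injective j.mulVec := Matrix.mulVec_injective_iff_isUnit.2 ((Matrix.isUnit_iff_isUnit_det j).2 hju)
    exact this
  -- the map from functions to U^*: a ↦ (u ↦ u ⬝ j a); kernel contains U; rank is dim U
  let A : Matrix F I F := Matrix.of fun c i => v c i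
  have hAr : A.rank = Fintype.card F := by
    rw [Matrix.rank_eq_finrank_span_row]
    exact finrank_span_eq_card hli
  have hmul : ∀ u ∈ U.map J, A *ᵥ u = 0 := by
    rintro _ ⟨u, hu, rfl⟩
    have h3 : U ≤ LinearMap.ker (A.mulVecLin ∘ₗ J) := by
      refine Submodule.span_le.2 ?_
      rintro _ ⟨c', rfl⟩
      rw [SetLike.mem_coe, LinearMap.mem_ker, LinearMap.comp_apply, Matrix.mulVecLin_apply]
      funext c
      exact hort c c'
    exact h3 hu
  have hfin : Module.finrank F ↥(U.map J) = Fintype.card F := by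
    rw [← hU]
    exact (Submodule.equivMapOfInjective J hJinj U).finrank_eq.symm
  have hle : U.map J ≤ LinearMap.ker A.mulVecLin := fun u hu => hmul u hu
  have h4 := Submodule.finrank_mono hle
  have h5 := LinearMap.finrank_range_add_finrank_ker A.mulVecLin
  rw [Matrix.rank] at hAr
  rw [Module.finrank_fintype_fun_eq_card, hI] at h5
  omega

/-- reduction of the determinant -/
theorem det_cast {I : Type*} [Fintype I] [DecidableEq I] (p : ℕ) (b j : Matrix I I ℤ) (c : ℤ) :
    (((b + c • j).det : ℤ) : ZMod p) =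
      (b.map (Int.castRingHom (ZMod p)) + (c : ZMod p) • j.map (Int.castRingHom (ZMod p))).det := by
  have h := RingHom.map_det (Int.castRingHom (ZMod p)) (b + c • j)
  rw [eq_intCast] at h
  rw [h]
  congr 1
  ext u v
  simp only [RingHom.mapMatrix_apply, Matrix.map_apply, Matrix.add_apply, Matrix.smul_apply, map_add, smul_eq_mul,
    map_mul, eq_intCast]

theorem Alt.map' {I R S : Type*} [Ring R] [Ring S] {b : Matrix I I R} (hb : Alt b) (f : R →+* S) : Alt (b.map f) :=
  ⟨fun u => by rw [Matrix.map_apply, hb.1, map_zero], fun u v => by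
    rw [Matrix.map_apply, Matrix.map_apply, hb.2 u v, map_neg]⟩

/-- an integer whose residues at the prime divisors of `n` are prescribed -/
theorem exists_crt (n : ℕ) (hn : 0 < n) (D : ℤ → ℤ) (hD : ∀ (p : ℕ), p.Prime → ∀ c c' : ℤ, (c : ZMod p) = c' →
    (D c : ZMod p) = D c') (h : ∀ p : ℕ, p.Prime → p ∣ n → ∃ c : ℤ, (D c : ZMod p) ≠ 0) :
    ∃ c : ℤ, IsCoprime (D c) (n : ℤ) := by
  classical
  have h1 : ∀ p : ℕ, ∃ c : ℕ, p.Prime → p ∣ n → (D c : ZMod p) ≠ 0 := by
    intro p
    by_cases hp : p.Prime ∧ p ∣ n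
    · obtain ⟨c, hc⟩ := h p hp.1 hp.2
      haveI : NeZero p := ⟨hp.1.ne_zero⟩
      refine ⟨(c : ZMod p).val, fun _ _ => ?_⟩
      rw [hD p hp.1 ((c : ZMod p).val : ℕ) c (by simp)]
      exact hc
    · exact ⟨0, fun a b => absurd ⟨a, b⟩ hp⟩
  choose c hc using h1
  obtain ⟨k, hk⟩ := Nat.chineseRemainderOfFinset c id n.primeFactors
    (fun p hp => (Nat.prime_of_mem_primeFactors hp).ne_zero)
    (fun p hp q hq hpq => (Nat.coprime_primes (Nat.prime_of_mem_primeFactors hp)
      (Nat.prime_of_mem_primeFactors hq)).2 hpq)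
  refine ⟨k, ?_⟩
  rw [Int.isCoprime_iff_gcd_eq_one]
  by_contra hne
  obtain ⟨p, hp, hpd⟩ := Nat.exists_prime_and_dvd hne
  have hp1 : (p : ℤ) ∣ D k := (Int.natCast_dvd_natCast.2 hpd).trans (Int.gcd_dvd_left _ _)
  have hp2 : p ∣ n := by
    have := (Int.natCast_dvd_natCast.2 hpd).trans (Int.gcd_dvd_right (D k) (n : ℤ))
    exact_mod_cast this
  have h3 := hk p (Nat.mem_primeFactors.2 ⟨hp, hp2, hn.ne'⟩)
  have h4 : ((k : ℤ) : ZMod p) = ((c p : ℤ) : ZMod p) := by
    have := (ZMod.natCast_eq_natCast_iff _ _ _).2 h3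
    exact_mod_cast this
  have h5 := hD p hp k (c p) h4
  have h6 : (D k : ZMod p) = 0 := (ZMod.intCast_zmod_eq_zero_iff_dvd _ _).2 hp1
  exact hc p hp hp2 (by rw [← h5, h6])

/-- **Some translate has determinant prime to `n`** if all prime divisors of `n` are larger than `g`. -/
theorem exists_shift_int {I : Type*} [Fintype I] [DecidableEq I] (g : ℕ) (hI : Fintype.card I = 2 * g) (n : ℕ)
    (hn : 0 < n) (hg : ∀ p : ℕ, p.Prime → p ∣ n → g < p) (b j : Matrix I I ℤ) (hb : Alt b) (hj : Alt j)
    (hdet : IsCoprime j.det (n : ℤ)) : ∃ c : ℤ, IsCoprime (b + c • j).det (n : ℤ) := by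
  refine exists_crt n hn (fun c => (b + c • j).det) ?_ ?_
  · intro p _ c c' h
    rw [det_cast, det_cast, h]
  · intro p hp hpn
    haveI : Fact p.Prime := ⟨hp⟩
    have h0 : (j.map (Int.castRingHom (ZMod p))).det ≠ 0 := by
      intro h
      have h2 := RingHom.map_det (Int.castRingHom (ZMod p)) j
      rw [eq_intCast] at h2
      have h3 : ((j.det : ℤ) : ZMod p) = 0 := by
        rw [h2]; exact h
      have h4 : (p : ℤ) ∣ j.det := (ZMod.intCast_zmod_eq_zero_iff_dvd _ _).1 h3
      have h5 : (p : ℤ) ∣ (n : ℤ) := by exact_mod_cast hpn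
      have h6 := hdet.isUnit_of_dvd' h4 h5
      exact hp.one_lt.ne' (by
        have := Int.isUnit_iff.1 h6
        rcases this with h | h <;> omega)
    obtain ⟨c, hc⟩ := exists_shift_field g hI (by rw [ZMod.card]; exact hg p hp hpn)
      (b.map (Int.castRingHom (ZMod p))) (j.map (Int.castRingHom (ZMod p))) (hb.map' _) (hj.map' _) h0
    obtain ⟨c', rfl⟩ := ZMod.intCast_surjective c
    refine ⟨c', ?_⟩
    rw [det_cast]
    exact hc

end Pool.Agent.Y109.PI
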