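import Mathlib
import Pool.Agent.H47.L.R_seed8.Y109.PI.Form
import Pool.Agent.H47.L.R_seed8.H552R3.SymPred
import Pool.Agent.H47.L.R_seed8.H552R3.Tsen.Tower

/-! Index bounds from the normal forms. -/

set_option autoImplicit false
set_option linter.all false

open scoped TensorProduct
open Matrix

noncomputable section

namespace Pool.Agent.Y109.PI

open Pool.Agent.Helper346.Bra Pool.Agent.Helper18.Br Pool.Agent.H552R3.SymBr Pool.Agent.H552R3.SymPred
  Pool.Agent.H552R3.Tsen

universe u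

variable {K : Type u} [Field K] {n : ℕ} {ζ : K}

/-- the symbol as a bimultiplicative map -/
def symHom (hn : 0 < n) (hζ : IsPrimitiveRoot ζ n) : Kˣ →* Kˣ →* BrauerGroup.{u, u} K where
  toFun := fun a => symR hn hζ a
  map_one' := by
    ext b
    exact symCl_one_left hn hζ b
  map_mul' := fun a a' => by
    ext b
    exact symCl_mul_left hn hζ a a' b

theorem symHom_apply (hn : 0 < n) (hζ : IsPrimitiveRoot ζ n) (a b : Kˣ) : symHom hn hζ a b = symCl hn hζ a b := rfl

theorem symCl_tors (hn : 0 < n) (hζ : IsPrimitiveRoot ζ n) (a b : Kˣ) : symCl hn hζ a b ^ n = 1 := by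
  have h := symCl_scale hn hζ a 1 b
  rw [one_mul, symCl_one_right] at h
  rw [h]
  exact (map_pow (symR hn hζ a) b n).symm

theorem hasRep_one : HasRep (1 : BrauerGroup.{u, u} K) 1 :=
  ⟨K, inferInstance, inferInstance, inferInstance, inferInstance, inferInstance, rfl, by
    rw [Module.finrank_self, one_pow]⟩

theorem hasRep_prod (hn : 0 < n) (hζ : IsPrimitiveRoot ζ n) : ∀ (g : ℕ) (x y : Fin g → Kˣ),
    HasRep (∏ i, symCl hn hζ (x i) (y i)) (n ^ g) := by
  intro g
  induction g with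
  | zero =>
    intro x y
    rw [Finset.univ_eq_empty, Finset.prod_empty, pow_zero]
    exact hasRep_one
  | succ g ih =>
    intro x y
    rw [Fin.prod_univ_succ, pow_succ, mul_comm (n ^ g)]
    exact (hasRep_symCl hn hζ _ _).mul (ih _ _)

/-- **Index bound**: nondegenerate translates. -/
theorem index_main {I : Type} [Fintype I] [DecidableEq I] (hn : 0 < n) (hζ : IsPrimitiveRoot ζ n)
    (H : Subgroup Kˣ) (hneg : (-1 : Kˣ) ∈ H) (V : Subgroup (BrauerGroup.{u, u} K))
    (hV : ∀ a ∈ H, ∀ b ∈ H, symCl hn hζ a b ∈ V) (m : ℕ) (hm : 0 < m) (hVm : ∀ β ∈ V, IndDvd β m)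
    (z : I → Kˣ) (g : ℕ) (hI : Fintype.card I = 2 * g)
    (hND : ∀ b : Matrix I I ℤ, Alt b → ∃ w0 : I → I → ℤ, Q (symHom hn hζ) z w0 ∈ low (symHom hn hζ) H V z ∧
      IsCoprime (b + Matrix.of fun u v => w0 u v - w0 v u).det (n : ℤ))
    (α : BrauerGroup.{u, u} K) (hα : α ∈ Subgroup.closure {γ | ∃ a ∈ H ⊔ Subgroup.closure (Set.range z),
      ∃ b ∈ H ⊔ Subgroup.closure (Set.range z), γ = symCl hn hζ a b}) :
    IndDvd α (m * n ^ g) := by
  obtain ⟨x, y, v, hv, h⟩ := abs_main (s := symHom hn hζ) (fun a b => symCl_anti hn hζ a b) n hn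
    (fun a b => symCl_tors hn hζ a b) (-1) H hneg (fun a => symCl_diag hn hζ a) V hV z g hI hND α hα
  rw [h, mul_comm m]
  exact ((hasRep_prod hn hζ g x y).mul ((hVm v hv).hasRep hm)).indDvd

end Pool.Agent.Y109.PI
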