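import Mathlib
import Pool.Agent.H47.L.R_seed8.Y109.PI.Sym
import Pool.Agent.H47.L.R_seed8.Y109.PI.Chev

/-! Degenerate and nondegenerate translates, several primes at once. -/

set_option autoImplicit false
set_option linter.all false

open Matrix

noncomputable section

namespace Pool.Agent.Y109.PI

/-- simultaneous congruences -/
theorem crt_one (n : ℕ) (a : ℕ → ℤ) : ∃ x : ℤ, ∀ p : ℕ, p.Prime → p ∣ n → 0 < n → (x : ZMod p) = a p := by
  classical
  obtain ⟨k, hk⟩ := Nat.chineseRemainderOfFinset (fun p => (a p : ZMod p).val) id n.primeFactors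
    (fun p hp => (Nat.prime_of_mem_primeFactors hp).ne_zero)
    (fun p hp q hq hpq => (Nat.coprime_primes (Nat.prime_of_mem_primeFactors hp)
      (Nat.prime_of_mem_primeFactors hq)).2 hpq)
  refine ⟨k, fun p hp hpn hn => ?_⟩
  haveI : NeZero p := ⟨hp.ne_zero⟩
  have h3 := hk p (Nat.mem_primeFactors.2 ⟨hp, hpn, hn.ne'⟩)
  have h4 := (ZMod.natCast_eq_natCast_iff _ _ _).2 h3
  simp only [id] at h4
  rw [Int.cast_natCast, h4, ZMod.natCast_val, ZMod.cast_id]

theorem crt_fun {ι : Type*} (n : ℕ) (a : ℕ → ι → ℤ) :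
    ∃ x : ι → ℤ, ∀ p : ℕ, p.Prime → p ∣ n → 0 < n → ∀ i, (x i : ZMod p) = a p i := by
  choose x hx using fun i => crt_one n (fun p => a p i)
  exact ⟨x, fun p hp hpn hn i => hx i p hp hpn hn⟩

theorem dvd_of_squarefree (n : ℕ) (hn : Squarefree n) (x : ℤ) (h : ∀ p : ℕ, p.Prime → p ∣ n → (p : ℤ) ∣ x) :
    (n : ℤ) ∣ x := by
  have h1 : ∏ q ∈ n.primeFactors, q = n := Nat.prod_primeFactors_of_squarefree hn
  have h2 : (∏ q ∈ n.primeFactors, q) ∣ x.natAbs := Finset.prod_primes_dvd _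
    (fun q hq => (Nat.prime_of_mem_primeFactors hq).prime)
    (fun q hq => Int.natCast_dvd.1 (h q (Nat.prime_of_mem_primeFactors hq) (Nat.dvd_of_mem_primeFactors hq)))
  rw [h1] at h2
  exact Int.natCast_dvd.2 h2

/-- the difference matrix of integral exponents -/
def dif {I : Type*} (w : I → I → ℤ) : Matrix I I ℤ := Matrix.of fun u v => w u v - w v u

theorem alt_dif {I : Type*} (w : I → I → ℤ) : Alt (dif w) :=
  ⟨fun u => by simp [dif], fun u v => by simp [dif]⟩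

/-- the reduction modulo `p` of an integral matrix -/
def red {I : Type*} (p : ℕ) (b : Matrix I I ℤ) : Matrix I I (ZMod p) := b.map (Int.castRingHom (ZMod p))

theorem red_add_sum {I κ : Type*} [Fintype κ] (p : ℕ) (b : Matrix I I ℤ) (c : κ → ℤ) (j : κ → Matrix I I ℤ) :
    red p (b + ∑ i, c i • j i) = red p b + ∑ i, (c i : ZMod p) • red p (j i) := by
  ext u v
  simp only [red, Matrix.map_apply, Matrix.add_apply, Matrix.sum_apply, Matrix.smul_apply, map_add, map_sum,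
    smul_eq_mul, map_mul, eq_intCast]

theorem red_det {I : Type*} [Fintype I] [DecidableEq I] (p : ℕ) (b : Matrix I I ℤ) :
    ((b.det : ℤ) : ZMod p) = (red p b).det := by
  have h := RingHom.map_det (Int.castRingHom (ZMod p)) b
  rw [eq_intCast] at h
  exact h

theorem vcast {p : ℕ} [NeZero p] (a : ZMod p) : (((a.val : ℕ) : ℤ) : ZMod p) = a := by simp

/-- the ordinarity condition at `p` -/
def OrdAt {I : Type*} [Fintype I] [DecidableEq I] (p g : ℕ) (w : Fin g → I → I → ℤ) : Prop :=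
  ¬ p ∣ Nat.card {c : Fin g → ZMod p // (∑ i, c i • red p (dif (w i))).det = 0}

section

variable {I : Type*} [Fintype I] [DecidableEq I]

theorem OrdAt.cw {p g : ℕ} (hp : p.Prime) (hg : 0 < g) (hI : Fintype.card I = 2 * g) {w : Fin g → I → I → ℤ}
    (h : OrdAt p g w) (b : Matrix I I ℤ) (hb : Alt b) :
    (∃ c : Fin g → ℤ, (red p (b + ∑ i, c i • dif (w i))).det = 0) ∧
      ∃ c : Fin g → ℤ, (red p (b + ∑ i, c i • dif (w i))).det ≠ 0 := by
  classical
  haveI : Fact p.Prime := ⟨hp⟩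
  haveI : NeZero p := ⟨hp.ne_zero⟩
  obtain ⟨⟨c, hc⟩, ⟨c', hc'⟩⟩ := cwI g hg hI (red p b) (hb.map' _)
    (fun i => red p (dif (w i))) (fun i => (alt_dif (w i)).map' _) (by
      rw [OrdAt, Nat.card_eq_fintype_card, Fintype.card_subtype] at h
      exact h)
  refine ⟨?_, ?_⟩
  · refine ⟨fun i => (c i).val, ?_⟩
    rw [red_add_sum]
    simp only [vcast]
    exact hc
  · refine ⟨fun i => (c' i).val, ?_⟩
    rw [red_add_sum]
    simp only [vcast]
    exact hc'

/-- a nondegenerate translate modulo all prime divisors of `n` -/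
theorem ord_nondeg (n g : ℕ) (hn : 0 < n) (hg : 0 < g) (hI : Fintype.card I = 2 * g) (w : Fin g → I → I → ℤ)
    (h : ∀ p : ℕ, p.Prime → p ∣ n → OrdAt p g w) (b : Matrix I I ℤ) (hb : Alt b) :
    ∃ c : Fin g → ℤ, IsCoprime (b + ∑ i, c i • dif (w i)).det (n : ℤ) := by
  have h1 : ∀ p : ℕ, ∃ c : Fin g → ℤ, p.Prime → p ∣ n → (red p (b + ∑ i, c i • dif (w i))).det ≠ 0 := by
    intro p
    by_cases hp : p.Prime ∧ p ∣ n
    · obtain ⟨_, ⟨c, hc⟩⟩ := (h p hp.1 hp.2).cw hp.1 hg hI b hb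
      exact ⟨c, fun _ _ => hc⟩
    · exact ⟨0, fun a b => absurd ⟨a, b⟩ hp⟩
  choose a ha using h1
  obtain ⟨x, hx⟩ := crt_fun n a
  refine ⟨x, ?_⟩
  rw [Int.isCoprime_iff_gcd_eq_one]
  by_contra hne
  obtain ⟨p, hp, hpd⟩ := Nat.exists_prime_and_dvd hne
  have hp1 : (p : ℤ) ∣ (b + ∑ i, x i • dif (w i)).det :=
    (Int.natCast_dvd_natCast.2 hpd).trans (Int.gcd_dvd_left _ _)
  have hp2 : p ∣ n := by
    have := (Int.natCast_dvd_natCast.2 hpd).trans
      (Int.gcd_dvd_right (b + ∑ i, x i • dif (w i)).det (n : ℤ))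
    exact_mod_cast this
  apply ha p hp hp2
  rw [red_add_sum]
  have h2 : ∀ i, ((a p i : ℤ) : ZMod p) = x i := fun i => (hx p hp hp2 hn i).symm
  simp only [h2]
  rw [← red_add_sum, ← red_det]
  exact (ZMod.intCast_zmod_eq_zero_iff_dvd _ _).2 hp1

/-- a degenerate alternating matrix over a prime field is a sum of `g - 1` decomposable ones -/
theorem sing_decomp {p : ℕ} [Fact p.Prime] (g : ℕ) (hg : 0 < g) (hI : Fintype.card I = 2 * g) (B : Matrix I I (ZMod p))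
    (hB : Alt B) (hdet : B.det = 0) : ∃ e f : Fin (g - 1) → I → ZMod p, B = ∑ i, wdg (e i) (f i) := by
  refine decomp (R := ZMod p) (K := ZMod p) (fun a b h => h) (g - 1) B hB ?_
  have h0 : B.map (algebraMap (ZMod p) (ZMod p)) = B := by
    ext u v; rfl
  rw [h0]
  obtain ⟨v, hv0, hv⟩ := Matrix.exists_mulVec_eq_zero_iff.2 hdet
  have h1 : 0 < Module.finrank (ZMod p) (LinearMap.ker B.mulVecLin) := by
    rw [Module.finrank_pos_iff_exists_ne_zero]
    exact ⟨⟨v, hv⟩, fun h => hv0 (congrArg Subtype.val h)⟩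
  have h2 := LinearMap.finrank_range_add_finrank_ker B.mulVecLin
  rw [Module.finrank_fintype_fun_eq_card, hI] at h2
  rw [Matrix.rank]
  omega

/-- a degenerate translate modulo a squarefree number -/
theorem ord_deg (n g : ℕ) (hn : Squarefree n) (hg : 0 < g) (hI : Fintype.card I = 2 * g) (w : Fin g → I → I → ℤ)
    (h : ∀ p : ℕ, p.Prime → p ∣ n → OrdAt p g w) (b : Matrix I I ℤ) (hb : Alt b) :
    ∃ (c : Fin g → ℤ) (e f : Fin (g - 1) → I → ℤ), ∀ u v,
      (n : ℤ) ∣ (b + ∑ i, c i • dif (w i)) u v - (∑ i, wdg (e i) (f i)) u v := by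
  have hn0 : 0 < n := Nat.pos_of_ne_zero hn.ne_zero
  have h1 : ∀ p : ℕ, ∃ (c : Fin g → ℤ) (e f : Fin (g - 1) × I → ℤ), p.Prime → p ∣ n →
      red p (b + ∑ i, c i • dif (w i)) = ∑ i, wdg (fun u => (e (i, u) : ZMod p)) (fun u => (f (i, u) : ZMod p)) := by
    intro p
    by_cases hp : p.Prime ∧ p ∣ n
    · haveI : Fact p.Prime := ⟨hp.1⟩
      obtain ⟨⟨c, hc⟩, _⟩ := (h p hp.1 hp.2).cw hp.1 hg hI b hb
      obtain ⟨e, f, hef⟩ := sing_decomp g hg hI (red p (b + ∑ i, c i • dif (w i)))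
        ((hb.add (Alt.sum _ _ fun i => (alt_dif (w i)).smul _)).map' _) hc
      refine ⟨c, fun q => (e q.1 q.2).val, fun q => (f q.1 q.2).val, fun _ _ => ?_⟩
      rw [hef]
      haveI : NeZero p := ⟨hp.1.ne_zero⟩
      simp only [vcast]
    · exact ⟨0, 0, 0, fun a b => absurd ⟨a, b⟩ hp⟩
  choose a e f haef using h1
  obtain ⟨x, hx⟩ := crt_fun n a
  obtain ⟨y, hy⟩ := crt_fun n e
  obtain ⟨y', hy'⟩ := crt_fun n f
  refine ⟨x, fun i u => y (i, u), fun i u => y' (i, u), fun u v => ?_⟩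
  refine dvd_of_squarefree n hn _ fun p hp hpn => ?_
  rw [← ZMod.intCast_zmod_eq_zero_iff_dvd, Int.cast_sub, sub_eq_zero]
  have h2 : ((b + ∑ i, x i • dif (w i)) u v : ZMod p) = red p (b + ∑ i, x i • dif (w i)) u v := rfl
  rw [h2, red_add_sum]
  have h3 : ∀ i, ((x i : ℤ) : ZMod p) = a p i := fun i => hx p hp hpn hn0 i
  simp only [h3]
  rw [← red_add_sum, haef p hp hpn, Matrix.sum_apply, Matrix.sum_apply, Int.cast_sum]
  refine Finset.sum_congr rfl fun i _ => ?_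
  simp only [wdg, Matrix.of_apply]
  rw [← hy p hp hpn hn0, ← hy' p hp hpn hn0, ← hy p hp hpn hn0, ← hy' p hp hpn hn0]
  push_cast
  ring

end

section

variable {G B : Type*} [CommGroup G] [CommGroup B] {s : G →* G →* B}

theorem Q_comb {I : Type*} [Fintype I] {g : ℕ} (z : I → G) (w : Fin g → I → I → ℤ) (c : Fin g → ℤ) :
    Q s z (∑ i, c i • w i) = ∏ i, Q s z (w i) ^ c i := by
  rw [Q_sum]
  exact Finset.prod_congr rfl fun i _ => Q_smul s z _ _

theorem dif_comb {I : Type*} {g : ℕ} (w : Fin g → I → I → ℤ) (c : Fin g → ℤ) :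
    (Matrix.of fun u v => (∑ i, c i • w i) u v - (∑ i, c i • w i) v u) = ∑ i, c i • dif (w i) := by
  ext u v
  simp only [Matrix.of_apply, Finset.sum_apply, Pi.smul_apply, smul_eq_mul, Matrix.sum_apply, Matrix.smul_apply,
    dif, ← Finset.sum_sub_distrib]
  exact Finset.sum_congr rfl fun i _ => by ring

/-- product of `g - 1` symbols modulo lower terms -/
theorem abs_sing (hanti : ∀ a b, s a b = (s b a)⁻¹) (n : ℕ) (hn : Squarefree n)
    (htors : ∀ a b, s a b ^ n = 1) (ε : G)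
    (H : Subgroup G) (hε : ε ∈ H) (hdiag : ∀ a, s a a = 1 ∨ s a a = s a ε) (V : Subgroup B)
    (hV : ∀ a ∈ H, ∀ b ∈ H, s a b ∈ V) {I : Type*} [Fintype I] [DecidableEq I] (g : ℕ) (hg : 0 < g)
    (hI : Fintype.card I = 2 * g) (z : I → G) (w : Fin g → I → I → ℤ) (hw : ∀ i, Q s z (w i) ∈ low s H V z)
    (hord : ∀ p : ℕ, p.Prime → p ∣ n → OrdAt p g w)
    (α : B) (hα : α ∈ Subgroup.closure {γ | ∃ a ∈ H ⊔ Subgroup.closure (Set.range z),
      ∃ b ∈ H ⊔ Subgroup.closure (Set.range z), γ = s a b}) :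
    ∃ x y : Fin (g - 1) → G, α * (∏ i, s (x i) (y i))⁻¹ ∈ low s H V z := by
  obtain ⟨w1, hw1⟩ := exists_Q hanti H V hV z α hα
  obtain ⟨c, e, f, h⟩ := ord_deg n g hn hg hI w hord (dif w1) (alt_dif w1)
  refine ⟨fun i => mon z (e i), fun i => mon z (f i), ?_⟩
  have h1 := mod_low hanti n htors ε H hε hdiag V z (w1 + ∑ i, c i • w i) (g - 1) e f (by
    intro u v
    have e1 : (w1 + ∑ i, c i • w i) u v - (w1 + ∑ i, c i • w i) v u = (dif w1 + ∑ i, c i • dif (w i)) u v := by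
      rw [← dif_comb]
      simp only [Pi.add_apply, Matrix.add_apply, Matrix.of_apply, dif]
      ring
    rw [e1]
    exact h u v)
  rw [Q_add, Q_comb] at h1
  have hw0 : ∏ i, Q s z (w i) ^ c i ∈ low s H V z :=
    Subgroup.prod_mem _ fun i _ => Subgroup.zpow_mem _ (hw i) _
  have h3 := Subgroup.mul_mem _ (Subgroup.mul_mem _ hw1 h1) (Subgroup.inv_mem _ hw0)
  have e1 : ∀ p q r : B, α * p⁻¹ * (p * q * r) * q⁻¹ = α * r := by
    intro p q r
    calc α * p⁻¹ * (p * q * r) * q⁻¹ = α * r * (p * p⁻¹) * (q * q⁻¹) := by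
          simp only [mul_assoc, mul_comm, mul_left_comm]
      _ = α * r := by rw [mul_inv_cancel, mul_inv_cancel, mul_one, mul_one]
  rw [e1] at h3
  exact h3

/-- product of `g` symbols -/
theorem abs_ord (hanti : ∀ a b, s a b = (s b a)⁻¹) (n : ℕ) (hn : 0 < n)
    (htors : ∀ a b, s a b ^ n = 1) (ε : G)
    (H : Subgroup G) (hε : ε ∈ H) (hdiag : ∀ a, s a a = 1 ∨ s a a = s a ε) (V : Subgroup B)
    (hV : ∀ a ∈ H, ∀ b ∈ H, s a b ∈ V) {I : Type*} [Fintype I] [DecidableEq I] (g : ℕ) (hg : 0 < g)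
    (hI : Fintype.card I = 2 * g) (z : I → G) (w : Fin g → I → I → ℤ) (hw : ∀ i, Q s z (w i) ∈ low s H V z)
    (hord : ∀ p : ℕ, p.Prime → p ∣ n → OrdAt p g w)
    (α : B) (hα : α ∈ Subgroup.closure {γ | ∃ a ∈ H ⊔ Subgroup.closure (Set.range z),
      ∃ b ∈ H ⊔ Subgroup.closure (Set.range z), γ = s a b}) :
    ∃ x y : Fin g → G, ∃ v ∈ V, α = (∏ i, s (x i) (y i)) * v := by
  refine abs_main hanti n hn htors ε H hε hdiag V hV z g hI (fun b hb => ?_) α hα
  obtain ⟨c, hc⟩ := ord_nondeg n g hn hg hI w hord b hb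
  refine ⟨∑ i, c i • w i, ?_, ?_⟩
  · rw [Q_comb]
    exact Subgroup.prod_mem _ fun i _ => Subgroup.zpow_mem _ (hw i) _
  · rw [dif_comb]
    exact hc

end

end Pool.Agent.Y109.PI
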