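import Mathlib
import Pool.Agent.H47.L.R_seed8.Y109.PI.Ord

/-! Trace forms of orders: the number of degenerate members is prime to `p`. -/

set_option autoImplicit false
set_option linter.all false

open Matrix

noncomputable section

namespace Pool.Agent.Y109.PI

universe v

variable {O : Type v} [CommRing O] {g : ℕ} (ε : Module.Basis (Fin g) ℤ O) (p : ℕ) [hp : Fact p.Prime]

/-- multiplication matrices modulo `p` -/
def Mp : O →+* Matrix (Fin g) (Fin g) (ZMod p) :=
  (RingHom.mapMatrix (Int.castRingHom (ZMod p))).comp (Algebra.leftMulMatrix ε).toRingHom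

theorem Mp_apply (r : O) (i j : Fin g) : Mp ε p r i j = ((ε.repr (r * ε j) i : ℤ) : ZMod p) := by
  change ((Algebra.leftMulMatrix ε r i j : ℤ) : ZMod p) = _
  rw [Algebra.leftMulMatrix_eq_repr_mul]

/-- coordinates modulo `p` -/
def cd (r : O) : Fin g → ZMod p := fun i => ((ε.repr r i : ℤ) : ZMod p)

theorem cd_apply (r : O) (i : Fin g) : cd ε p r i = ((ε.repr r i : ℤ) : ZMod p) := rfl

theorem Mp_mulVec (r s : O) : Mp ε p r *ᵥ cd ε p s = cd ε p (r * s) := by
  have h := Algebra.leftMulMatrix_mulVec_repr ε r s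
  funext i
  have h1 := congrFun h i
  simp only [mulVec, dotProduct] at h1
  rw [cd, ← h1]
  simp only [mulVec, dotProduct, cd, Int.cast_sum, Int.cast_mul]
  rfl

theorem cd_eq_zero_of_Mp {r : O} (h : Mp ε p r = 0) : cd ε p r = 0 := by
  have h1 := Mp_mulVec ε p r 1
  rw [h, zero_mulVec, mul_one] at h1
  exact h1.symm

theorem Mp_eq_sum (r : O) : Mp ε p r = ∑ i, cd ε p r i • Mp ε p (ε i) := by
  conv_lhs => rw [← ε.sum_repr r]
  rw [map_sum]
  refine Finset.sum_congr rfl fun i _ => ?_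
  rw [map_zsmul, cd]
  ext a b
  rw [Matrix.smul_apply, Matrix.smul_apply, zsmul_eq_mul, smul_eq_mul]

/-- trace modulo `p` -/
theorem trace_mod (r : O) : ((Algebra.trace ℤ O r : ℤ) : ZMod p) = (Mp ε p r).trace := by
  rw [Algebra.trace_eq_matrix_trace ε]
  have h1 : ((Algebra.leftMulMatrix ε r).trace : ZMod p) = ((Algebra.leftMulMatrix ε r).map (Int.castRingHom (ZMod p))).trace := by
    simp only [Matrix.trace, Matrix.diag, Matrix.map_apply, Int.cast_sum, eq_intCast]
  rw [h1]
  rfl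

/-- the reduced trace form matrix -/
def Dp : Matrix (Fin g) (Fin g) (ZMod p) := Matrix.of fun k l => ((Algebra.trace ℤ O (ε k * ε l) : ℤ) : ZMod p)

theorem det_Dp : (Dp ε p).det = ((Algebra.discr ℤ ε : ℤ) : ZMod p) := by
  rw [Algebra.discr_def]
  have h := RingHom.map_det (Int.castRingHom (ZMod p)) (Algebra.traceMatrix ℤ ε)
  rw [eq_intCast] at h
  rw [h]
  congr 1

/-- the matrix of `Tr(r ε_k ε_l)` -/
theorem tr_mat (r : O) : (Matrix.of fun k l => ((Algebra.trace ℤ O (r * ε k * ε l) : ℤ) : ZMod p)) =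
    (Mp ε p r).transpose * Dp ε p := by
  ext k l
  rw [Matrix.mul_apply, Matrix.of_apply]
  have h1 : r * ε k * ε l = ∑ m, ε.repr (r * ε k) m • (ε m * ε l) := by
    conv_lhs => rw [← ε.sum_repr (r * ε k)]
    rw [Finset.sum_mul]
    exact Finset.sum_congr rfl fun m _ => by rw [smul_mul_assoc]
  rw [h1, map_sum, Int.cast_sum]
  refine Finset.sum_congr rfl fun m _ => ?_
  rw [Matrix.transpose_apply, Mp_apply, Dp, Matrix.of_apply, map_zsmul, smul_eq_mul, Int.cast_mul]

/-- nilpotent elements vanish modulo `p` when `p` does not divide the discriminant -/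
theorem red_Mp (hd : ¬ (p : ℤ) ∣ Algebra.discr ℤ ε) (r : O) (h : IsNilpotent (Mp ε p r)) : Mp ε p r = 0 := by
  have hdet : (Dp ε p).det ≠ 0 := by
    rw [det_Dp]
    exact fun h => hd ((ZMod.intCast_zmod_eq_zero_iff_dvd _ _).1 h)
  have h1 : ∀ l, ((Algebra.trace ℤ O (r * ε l) : ℤ) : ZMod p) = 0 := by
    intro l
    rw [trace_mod ε p]
    have h2 : IsNilpotent (Mp ε p (r * ε l)) := by
      rw [map_mul]
      refine Commute.isNilpotent_mul_right ?_ h
      rw [Commute, SemiconjBy, ← map_mul, ← map_mul, mul_comm]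
    exact (Matrix.isNilpotent_trace_of_isNilpotent h2).eq_zero
  have h3 : (cd ε p r) ᵥ* Dp ε p = 0 := by
    funext l
    rw [Pi.zero_apply, ← h1 l, vecMul, dotProduct]
    have h4 : r * ε l = ∑ k, ε.repr r k • (ε k * ε l) := by
      conv_lhs => rw [← ε.sum_repr r]
      rw [Finset.sum_mul]
      exact Finset.sum_congr rfl fun m _ => by rw [smul_mul_assoc]
    rw [h4, map_sum, Int.cast_sum]
    refine Finset.sum_congr rfl fun k _ => ?_
    rw [Dp, Matrix.of_apply, map_zsmul, smul_eq_mul, Int.cast_mul]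
    rfl
  have h5 : cd ε p r = 0 := Matrix.eq_zero_of_vecMul_eq_zero hdet h3
  rw [Mp_eq_sum, h5]
  simp

/-- the reduced ring -/
abbrev Rp : Subring (Matrix (Fin g) (Fin g) (ZMod p)) := (Mp ε p).range

instance : CommRing (Rp ε p) :=
  { (inferInstance : Ring (Rp ε p)) with
    mul_comm := by
      rintro ⟨_, a, rfl⟩ ⟨_, b, rfl⟩
      apply Subtype.ext
      change Mp ε p a * Mp ε p b = Mp ε p b * Mp ε p a
      rw [← map_mul, ← map_mul, mul_comm] }

/-- the bijection from coordinates -/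
theorem comb_bij : Function.Bijective (fun c : Fin g → ZMod p =>
    (⟨∑ i, c i • Mp ε p (ε i), ∑ i, ((c i).val : ℤ) • ε i, by
      rw [map_sum]
      refine Finset.sum_congr rfl fun i _ => ?_
      haveI : NeZero p := ⟨hp.out.ne_zero⟩
      rw [map_zsmul]
      ext a b
      rw [Matrix.smul_apply, Matrix.smul_apply, zsmul_eq_mul, smul_eq_mul, vcast]⟩ : Rp ε p)) := by
  haveI : NeZero p := ⟨hp.out.ne_zero⟩
  constructor
  · intro c c' h
    have h1 : ∑ i, c i • Mp ε p (ε i) = ∑ i, c' i • Mp ε p (ε i) := congrArg Subtype.val h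
    have h2 : ∀ c : Fin g → ZMod p, (∑ i, c i • Mp ε p (ε i)) *ᵥ cd ε p 1 = c := by
      intro c
      rw [Matrix.sum_mulVec]
      simp only [Matrix.smul_mulVec, Mp_mulVec, mul_one]
      funext j
      rw [Finset.sum_apply, Finset.sum_eq_single j]
      · rw [Pi.smul_apply, cd_apply, Module.Basis.repr_self, Finsupp.single_eq_same]; simp
      · intro i _ hij
        rw [Pi.smul_apply, cd_apply, Module.Basis.repr_self, Finsupp.single_eq_of_ne (Ne.symm hij)]; simp
      · intro h; exact absurd (Finset.mem_univ _) h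
    rw [← h2 c, ← h2 c', h1]
  · rintro ⟨_, r, rfl⟩
    exact ⟨cd ε p r, Subtype.ext (Mp_eq_sum ε p r).symm⟩

theorem isUnit_iff_det (A : Rp ε p) : IsUnit A ↔ (A : Matrix (Fin g) (Fin g) (ZMod p)).det ≠ 0 := by
  constructor
  · intro h
    have h1 : IsUnit ((Rp ε p).subtype A) := h.map _
    exact ((Matrix.isUnit_iff_isUnit_det _).1 h1).ne_zero
  · intro h
    have h1 : IsUnit (A : Matrix (Fin g) (Fin g) (ZMod p)) :=
      (Matrix.isUnit_iff_isUnit_det _).2 (isUnit_iff_ne_zero.2 h)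
    have hinj : Function.Injective (fun B : Rp ε p => A * B) := by
      intro B C hBC
      apply Subtype.ext
      exact h1.mul_left_cancel (congrArg Subtype.val hBC)
    obtain ⟨B, hB⟩ := (Finite.injective_iff_surjective.1 hinj) 1
    exact IsUnit.of_mul_eq_one B hB

/-- the number of units of a finite reduced ring of characteristic `p` is prime to `p` -/
theorem units_prime (hd : ¬ (p : ℤ) ∣ Algebra.discr ℤ ε) : ¬ p ∣ Nat.card (Rp ε p)ˣ := by
  intro h
  haveI : Fintype (Rp ε p)ˣ := Fintype.ofFinite _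
  obtain ⟨u, hu⟩ := exists_prime_orderOf_dvd_card' p h
  have h1 : u ^ p = 1 := by
    have h0 := pow_orderOf_eq_one u
    rwa [hu] at h0
  haveI hch : CharP (Matrix (Fin g) (Fin g) (ZMod p)) p ∨ g = 0 := by
    rcases Nat.eq_zero_or_pos g with h0 | h0
    · exact Or.inr h0
    · haveI : Nonempty (Fin g) := ⟨⟨0, h0⟩⟩
      exact Or.inl inferInstance
  have h2 : ((u : Rp ε p) : Matrix (Fin g) (Fin g) (ZMod p)) ^ p = 1 := by
    have := congrArg (fun x : (Rp ε p)ˣ => ((x : Rp ε p) : Matrix (Fin g) (Fin g) (ZMod p))) h1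
    simpa using this
  have hu1 : u ≠ 1 := by
    rintro rfl
    rw [orderOf_one] at hu
    exact hp.out.one_lt.ne hu
  rcases hch with hch | h0
  · have h3 : (((u : Rp ε p) : Matrix (Fin g) (Fin g) (ZMod p)) - 1) ^ p = 0 := by
      rw [sub_pow_char_of_commute _ (Commute.one_right _), h2, one_pow, sub_self]
    obtain ⟨r, hr⟩ := ((u : Rp ε p) - 1).2
    have h4 : Mp ε p r = 0 := red_Mp ε p hd r ⟨p, by rw [hr]; exact h3⟩
    apply hu1
    have h5 : ((u : Rp ε p) - 1) = 0 := Subtype.ext (hr.symm.trans h4)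
    exact Units.ext (sub_eq_zero.1 h5)
  · subst h0
    apply hu1
    refine Units.ext (Subtype.ext ?_)
    ext i
    exact i.elim0

/-- the relations of real multiplication by `O` -/
def rmw (i : Fin g) : Fin g ⊕ Fin g → Fin g ⊕ Fin g → ℤ := fun u v =>
  Sum.elim (fun k => Sum.elim (fun _ => 0) (fun l => Algebra.trace ℤ O (ε i * ε k * ε l)) v) (fun _ => 0) u

theorem det_anti {R : Type*} [CommRing R] [Nontrivial R] [NoZeroDivisors R] (T : Matrix (Fin g) (Fin g) R) :
    (Matrix.fromBlocks 0 T (-T.transpose) 0).det = 0 ↔ T.det = 0 := by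
  have h1 : Matrix.fromBlocks 0 T (-T.transpose) 0 * Matrix.J (Fin g) R =
      Matrix.fromBlocks T 0 0 T.transpose := by
    rw [Matrix.J, Matrix.fromBlocks_multiply]
    simp
  have h2 := congrArg Matrix.det h1
  rw [Matrix.det_mul, Matrix.det_fromBlocks_zero₂₁, Matrix.det_transpose] at h2
  have hJ : (Matrix.J (Fin g) R).det ≠ 0 := (Matrix.isUnit_det_J (Fin g) R).ne_zero
  constructor
  · intro h
    rw [h, zero_mul] at h2
    exact (mul_self_eq_zero.1 h2.symm)
  · intro h
    rw [h, zero_mul] at h2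
    exact (mul_eq_zero.1 h2).resolve_right hJ

/-- **Trace forms of orders are ordinary away from the discriminant.** -/
theorem rm_ord (hg : 0 < g) (hd : ¬ (p : ℤ) ∣ Algebra.discr ℤ ε) : OrdAt p g (rmw ε) := by
  classical
  haveI : NeZero p := ⟨hp.out.ne_zero⟩
  rw [OrdAt]
  have hdet : (Dp ε p).det ≠ 0 := by
    rw [det_Dp]
    exact fun h => hd ((ZMod.intCast_zmod_eq_zero_iff_dvd _ _).1 h)
  have hmat : ∀ c : Fin g → ZMod p, (∑ i, c i • red p (dif (rmw ε i))) =
      Matrix.fromBlocks 0 ((∑ i, c i • Mp ε p (ε i)).transpose * Dp ε p)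
        (-((∑ i, c i • Mp ε p (ε i)).transpose * Dp ε p).transpose) 0 := by
    intro c
    have h1 : (∑ i, c i • Mp ε p (ε i)).transpose * Dp ε p =
        ∑ i, c i • (Matrix.of fun k l => ((Algebra.trace ℤ O (ε i * ε k * ε l) : ℤ) : ZMod p)) := by
      rw [Matrix.transpose_sum, Finset.sum_mul]
      refine Finset.sum_congr rfl fun i _ => ?_
      rw [Matrix.transpose_smul, Matrix.smul_mul, ← tr_mat]
    rw [h1]
    ext u v
    rcases u with u | u <;> rcases v with v | v
    · simp [red, dif, rmw, Matrix.sum_apply]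
    · simp [red, dif, rmw, Matrix.sum_apply]
    · simp [red, dif, rmw, Matrix.sum_apply]
    · simp [red, dif, rmw, Matrix.sum_apply]
  have hiff : ∀ c : Fin g → ZMod p, (∑ i, c i • red p (dif (rmw ε i))).det = 0 ↔
      (∑ i, c i • Mp ε p (ε i)).det = 0 := by
    intro c
    rw [hmat, det_anti, Matrix.det_mul, Matrix.det_transpose, mul_eq_zero]
    exact ⟨fun h => h.resolve_right hdet, Or.inl⟩
  simp only [hiff]
  -- count
  let B := Equiv.ofBijective _ (comb_bij ε p)
  have hB : ∀ c, ((B c : Rp ε p) : Matrix (Fin g) (Fin g) (ZMod p)) = ∑ i, c i • Mp ε p (ε i) := fun c => rfl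
  have h1 : Nat.card {c : Fin g → ZMod p // ¬ (∑ i, c i • Mp ε p (ε i)).det = 0} = Nat.card (Rp ε p)ˣ := by
    have e1 : {c : Fin g → ZMod p // ¬ (∑ i, c i • Mp ε p (ε i)).det = 0} ≃ {A : Rp ε p // IsUnit A} :=
      B.subtypeEquiv fun c => by rw [isUnit_iff_det, hB]
    have e2 : {A : Rp ε p // IsUnit A} ≃ (Rp ε p)ˣ := (Submonoid.unitsTypeEquivIsUnitSubmonoid (M := Rp ε p)).toEquiv.symm
    exact Nat.card_congr (e1.trans e2)
  have h2 : Nat.card {c : Fin g → ZMod p // (∑ i, c i • Mp ε p (ε i)).det = 0} +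
      Nat.card {c : Fin g → ZMod p // ¬ (∑ i, c i • Mp ε p (ε i)).det = 0} = p ^ g := by
    rw [Nat.card_eq_fintype_card, Nat.card_eq_fintype_card, ← Fintype.card_sum,
      Fintype.card_congr (Equiv.sumCompl _), Fintype.card_fun, ZMod.card, Fintype.card_fin]
  intro h
  have h3 : p ∣ Nat.card (Rp ε p)ˣ := by
    rw [← h1]
    exact (Nat.dvd_add_right h).1 (by rw [h2]; exact dvd_pow_self p hg.ne')
  exact units_prime ε p hd h3

end Pool.Agent.Y109.PI
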