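import Mathlib
import Pool.Agent.H47.L.R_seed8.Y109.PI.Chev
import Pool.Agent.H47.L.R_seed8.Y109.PI.Shift

/-! Values of the Pfaffian of a pencil: the fixed divisor divides `g!`. -/

set_option autoImplicit false
set_option linter.all false

open Matrix Polynomial
open scoped fwdDiff

noncomputable section

namespace Pool.Agent.Y109.PI

open Pool.Agent.Helper929

theorem pf_pencil_step {R : Type*} [CommRing R] (m k : ℕ)
    (ih : ∀ b j : Matrix (Fin m) (Fin m) R, (pf m (b.map C + (X : R[X]) • j.map C)).natDegree ≤ k ∧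
      (pf m (b.map C + (X : R[X]) • j.map C)).coeff k = pf m j) (b j : Matrix (Fin (m + 2)) (Fin (m + 2)) R) :
    (pf (m + 2) (b.map C + (X : R[X]) • j.map C)).natDegree ≤ k + 1 ∧
      (pf (m + 2) (b.map C + (X : R[X]) • j.map C)).coeff (k + 1) = pf (m + 2) j := by
  have hexp : pf (m + 2) (b.map C + (X : R[X]) • j.map C) =
      ∑ l : Fin (m + 1), (-1) ^ (l : ℕ) * (C (b 0 l.succ) + X * C (j 0 l.succ)) * pf m
    (((b.submatrix (fun k => (l.succAbove k).succ) (fun k => (l.succAbove k).succ))).map C +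
      (X : R[X]) • (j.submatrix (fun k => (l.succAbove k).succ) (fun k => (l.succAbove k).succ)).map C) := rfl
  have hexp2 : pf (m + 2) j = ∑ l : Fin (m + 1), (-1) ^ (l : ℕ) * j 0 l.succ * pf m
    (j.submatrix (fun k => (l.succAbove k).succ) (fun k => (l.succAbove k).succ)) := rfl
  have hlin : ∀ l : Fin (m + 1), ((-1) ^ (l : ℕ) * (C (b 0 l.succ) + X * C (j 0 l.succ)) : R[X]).natDegree ≤ 1 := by
    intro l
    have h1 : ((-1) ^ (l : ℕ) * (C (b 0 l.succ) + X * C (j 0 l.succ)) : R[X]) =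
        C ((-1) ^ (l : ℕ) * j 0 l.succ) * X + C ((-1) ^ (l : ℕ) * b 0 l.succ) := by
      simp only [map_mul, map_pow, map_neg, map_one]; ring
    rw [h1]
    exact natDegree_linear_le
  have hlinc : ∀ l : Fin (m + 1), ((-1) ^ (l : ℕ) * (C (b 0 l.succ) + X * C (j 0 l.succ)) : R[X]).coeff 1 =
      (-1) ^ (l : ℕ) * j 0 l.succ := by
    intro l
    have h1 : ((-1) ^ (l : ℕ) * (C (b 0 l.succ) + X * C (j 0 l.succ)) : R[X]) =
        C ((-1) ^ (l : ℕ) * j 0 l.succ) * X + C ((-1) ^ (l : ℕ) * b 0 l.succ) := by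
      simp only [map_mul, map_pow, map_neg, map_one]; ring
    rw [h1, coeff_add, coeff_C_mul, coeff_X_one, coeff_C_succ, mul_one, add_zero]
  constructor
  · rw [hexp]
    refine natDegree_sum_le_of_forall_le _ _ fun l _ => ?_
    refine (natDegree_mul_le).trans ?_
    exact (Nat.add_le_add (hlin l) (ih _ _).1).trans (Nat.add_comm 1 k).le
  · rw [hexp, hexp2, finset_sum_coeff]
    refine Finset.sum_congr rfl fun l _ => ?_
    have h2 := coeff_mul_add_eq_of_natDegree_le (hlin l) (ih (b.submatrix (fun k => (l.succAbove k).succ)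
      (fun k => (l.succAbove k).succ)) (j.submatrix (fun k => (l.succAbove k).succ) (fun k => (l.succAbove k).succ))).1
    rw [Nat.add_comm 1 k, hlinc, (ih _ _).2] at h2
    exact h2

/-- the Pfaffian of a linear pencil is a polynomial of degree at most `k` with leading coefficient the Pfaffian
of the second matrix -/
theorem pf_pencil {R : Type*} [CommRing R] : ∀ (k : ℕ) (b j : Matrix (Fin (2 * k)) (Fin (2 * k)) R),
    (pf (2 * k) (b.map C + (X : R[X]) • j.map C)).natDegree ≤ k ∧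
      (pf (2 * k) (b.map C + (X : R[X]) • j.map C)).coeff k = pf (2 * k) j
  | 0, b, j => by simp [pf]
  | k + 1, b, j => pf_pencil_step (2 * k) k (pf_pencil k) b j

/-- evaluation of the pencil -/
theorem pf_pencil_eval (k : ℕ) (b j : Matrix (Fin (2 * k)) (Fin (2 * k)) ℤ) (c : ℤ) :
    (pf (2 * k) (b.map C + (X : ℤ[X]) • j.map C)).eval c = pf (2 * k) (b + c • j) := by
  have h := pf_map (evalRingHom c) (2 * k) (b.map C + (X : ℤ[X]) • j.map C)
  rw [coe_evalRingHom] at h
  rw [h]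
  congr 1
  ext u v
  simp only [Matrix.map_apply, Matrix.add_apply, Matrix.smul_apply, smul_eq_mul, coe_evalRingHom, eval_add, eval_mul,
    eval_C, eval_X]

/-- **The fixed divisor of an integral polynomial of degree `g` divides `g!` times the leading coefficient.** -/
theorem exists_value (g : ℕ) (P : ℤ[X]) (hdeg : P.natDegree ≤ g) (p : ℕ) (hp : p.Prime)
    (hlc : ¬ (p : ℤ) ∣ P.coeff g) : ∃ c : ℤ, ¬ (p : ℤ) ^ (g.factorial.factorization p + 1) ∣ P.eval c := by
  by_contra hcon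
  push Not at hcon
  have hg0 : P.coeff g ≠ 0 := fun h => hlc (by rw [h]; exact dvd_zero _)
  have hnat : P.natDegree = g := natDegree_eq_of_le_of_coeff_ne_zero hdeg hg0
  have h1 := congrFun (P.fwdDiff_iter_degree_eq_factorial) 0
  rw [fwdDiff_iter_eq_sum_shift, hnat] at h1
  have h2 : (p : ℤ) ^ (g.factorial.factorization p + 1) ∣ P.coeff g * (g.factorial : ℤ) := by
    have h3 : (P.leadingCoeff • (g.factorial : ℤ → ℤ)) 0 = P.coeff g * (g.factorial : ℤ) := by
      rw [Pi.smul_apply, smul_eq_mul, leadingCoeff, hnat]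
      rfl
    rw [← h3, ← h1]
    refine Finset.dvd_sum fun i _ => ?_
    rw [zsmul_eq_mul]
    exact Dvd.dvd.mul_left (hcon _) _
  have hcop : IsCoprime ((p : ℤ) ^ (g.factorial.factorization p + 1)) (P.coeff g) := by
    apply IsCoprime.pow_left
    exact (Nat.prime_iff_prime_int.1 hp).coprime_iff_not_dvd.2 hlc
  have h4 : (p : ℤ) ^ (g.factorial.factorization p + 1) ∣ (g.factorial : ℤ) := hcop.dvd_of_dvd_mul_left h2
  have h5 : p ^ (g.factorial.factorization p + 1) ∣ g.factorial := by exact_mod_cast h4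
  have h6 := (hp.pow_dvd_iff_le_factorization (Nat.factorial_ne_zero g)).1 h5
  omega

/-- simultaneous choice at all prime divisors of `n` -/
theorem exists_value_all (g n : ℕ) (hn : 0 < n) (P : ℤ[X]) (hdeg : P.natDegree ≤ g)
    (hlc : IsCoprime (P.coeff g) (n : ℤ)) :
    ∃ c : ℤ, ∀ p : ℕ, p.Prime → p ∣ n → ¬ (p : ℤ) ^ (g.factorial.factorization p + 1) ∣ P.eval c := by
  classical
  have h1 : ∀ p : ℕ, ∃ c : ℤ, p.Prime → p ∣ n → ¬ (p : ℤ) ^ (g.factorial.factorization p + 1) ∣ P.eval c := by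
    intro p
    by_cases hp : p.Prime ∧ p ∣ n
    · obtain ⟨c, hc⟩ := exists_value g P hdeg p hp.1 (by
        intro h
        have h5 : (p : ℤ) ∣ (n : ℤ) := by exact_mod_cast hp.2
        have h6 := hlc.isUnit_of_dvd' h h5
        have := Int.isUnit_iff.1 h6
        have := hp.1.one_lt
        omega)
      exact ⟨c, fun _ _ => hc⟩
    · exact ⟨0, fun a b => absurd ⟨a, b⟩ hp⟩
  choose a ha using h1
  let s : ℕ → ℕ := fun p => p ^ (g.factorial.factorization p + 1)
  have hs0 : ∀ p ∈ n.primeFactors, s p ≠ 0 := fun p hp => pow_ne_zero _ (Nat.prime_of_mem_primeFactors hp).ne_zero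
  obtain ⟨k, hk⟩ := Nat.chineseRemainderOfFinset (fun p => (a p % (s p : ℤ)).toNat) s n.primeFactors hs0
    (fun p hp q hq hpq => Nat.Coprime.pow _ _ ((Nat.coprime_primes (Nat.prime_of_mem_primeFactors hp)
      (Nat.prime_of_mem_primeFactors hq)).2 hpq))
  refine ⟨k, fun p hp hpn h => ha p hp hpn ?_⟩
  have hmem : p ∈ n.primeFactors := Nat.mem_primeFactors.2 ⟨hp, hpn, hn.ne'⟩
  have h3 := hk p hmem
  have hs : (s p : ℤ) ≠ 0 := by exact_mod_cast hs0 p hmem
  have h4 : (s p : ℤ) ∣ (k : ℤ) - a p := by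
    have h5 : ((k : ℕ) : ℤ) ≡ ((a p % (s p : ℤ)).toNat : ℤ) [ZMOD (s p : ℤ)] := by
      exact_mod_cast (Int.natCast_modEq_iff.2 h3)
    rw [Int.toNat_of_nonneg (Int.emod_nonneg _ hs)] at h5
    have h6 : (k : ℤ) ≡ a p [ZMOD (s p : ℤ)] := h5.trans (Int.mod_modEq _ _)
    exact (Int.modEq_iff_dvd.1 h6.symm)
  have h7 : (s p : ℤ) ∣ P.eval (k : ℤ) - P.eval (a p) := h4.trans (sub_dvd_eval_sub _ _ _)
  have h8 : (s p : ℤ) = (p : ℤ) ^ (g.factorial.factorization p + 1) := by simp [s]
  rw [h8] at h7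
  have := dvd_sub h h7
  rwa [sub_sub_cancel] at this

/-- **A good member of a pencil of alternating matrices.** -/
theorem exists_good {I : Type*} [Fintype I] [DecidableEq I] (g : ℕ) (hI : Fintype.card I = 2 * g) (n : ℕ)
    (hn : 0 < n) (b j : Matrix I I ℤ) (hb : Alt b) (hj : Alt j) (hdet : IsCoprime j.det (n : ℤ)) :
    ∃ c P : ℤ, (b + c • j).det = P ^ 2 ∧
      ∀ p : ℕ, p.Prime → p ∣ n → ¬ (p : ℤ) ^ (g.factorial.factorization p + 1) ∣ P := by
  let e : Fin (2 * g) ≃ I := (finCongr hI.symm).trans (Fintype.equivFin I).symm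
  have halt : ∀ a : Matrix I I ℤ, Alt a → ∀ u v, (a.submatrix e e) u v = - (a.submatrix e e) v u :=
    fun a ha u v => ha.2 _ _
  obtain ⟨h1, h2⟩ := pf_pencil g (b.submatrix e e) (j.submatrix e e)
  have h3 : IsCoprime (pf (2 * g) (j.submatrix e e)) (n : ℤ) := by
    have h4 := pf_sq_int (j.submatrix e e) (halt j hj)
    rw [Matrix.det_submatrix_equiv_self] at h4
    rw [← h4] at hdet
    exact (IsCoprime.pow_left_iff two_pos).1 hdet
  obtain ⟨c, hc⟩ := exists_value_all g n hn _ h1 (by rw [h2]; exact h3)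
  refine ⟨c, _, ?_, hc⟩
  rw [pf_pencil_eval, pf_sq_int]
  · have h5 : b.submatrix e e + c • j.submatrix e e = (b + c • j).submatrix e e := rfl
    rw [h5, Matrix.det_submatrix_equiv_self]
  · intro u v
    simp only [Matrix.add_apply, Matrix.smul_apply, Matrix.submatrix_apply]
    rw [hb.2, hj.2 (e u)]
    simp only [smul_neg]
    ring

end Pool.Agent.Y109.PI
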