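import Mathlib
import Pool.Agent.H47.L.R_seed8.Y109.PI.Mat

/-! The Frobenius normal form of a nondegenerate alternating form over the integers. -/

set_option autoImplicit false
set_option linter.all false

open Matrix

namespace Pool.Agent.Y109.PI

universe v

/-- the model alternating form -/
def stdF {g : ℕ} (d : Fin g → ℤ) (p q : (Fin g → ℤ) × (Fin g → ℤ)) : ℤ :=
  ∑ i, d i * (p.1 i * q.2 i - p.2 i * q.1 i)

theorem frob : ∀ (g : ℕ) (M : Type v) [AddCommGroup M] [Module.Free ℤ M] [Module.Finite ℤ M]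
    (_ : Module.finrank ℤ M = 2 * g) (b : M →ₗ[ℤ] M →ₗ[ℤ] ℤ) (_ : ∀ x, b x x = 0)
    (_ : ∀ x, (∀ y, b x y = 0) → x = 0),
    ∃ (ψ : ((Fin g → ℤ) × (Fin g → ℤ)) ≃ₗ[ℤ] M) (d : Fin g → ℤ), ∀ p q, b (ψ p) (ψ q) = stdF d p q := by
  intro g
  induction g with
  | zero =>
    intro M _ _ _ hM b hb hnd
    haveI : Subsingleton M := by
      rw [← Module.finrank_zero_iff (R := ℤ)]
      exact hM
    refine ⟨(0 : ((Fin 0 → ℤ) × (Fin 0 → ℤ)) ≃ₗ[ℤ] M), Fin.elim0, fun p q => ?_⟩
    have h0 : ((0 : ((Fin 0 → ℤ) × (Fin 0 → ℤ)) ≃ₗ[ℤ] M) p) = 0 := Subsingleton.elim _ _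
    rw [h0, map_zero, LinearMap.zero_apply]
    simp [stdF]
  | succ g ih =>
    intro M _ _ _ hM b hb hnd
    have hanti : ∀ x y, b x y = - b y x := by
      intro x y
      have h := hb (x + y)
      simp only [map_add, LinearMap.add_apply] at h
      rw [hb x, hb y] at h
      linarith
    -- a minimal value
    haveI : Nontrivial M := by
      rw [← Module.finrank_pos_iff (R := ℤ)]
      omega
    obtain ⟨x0, hx0⟩ := exists_ne (0 : M)
    obtain ⟨y0, hy0⟩ : ∃ y, b x0 y ≠ 0 := by
      by_contra h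
      push Not at h
      exact hx0 (hnd x0 h)
    have hex : ∃ m : ℕ, ∃ x y : M, b x y ≠ 0 ∧ (b x y).natAbs = m := ⟨_, x0, y0, hy0, rfl⟩
    classical
    obtain ⟨x, y, hxy, hmin⟩ := Nat.find_spec hex
    set d0 := b x y with hd0
    have hmin' : ∀ x' y', b x' y' ≠ 0 → d0.natAbs ≤ (b x' y').natAbs := by
      intro x' y' h
      rw [hmin]
      exact Nat.find_min' hex ⟨x', y', h, rfl⟩
    have hdvd1 : ∀ z, d0 ∣ b x z := by
      intro z
      have h1 : b x (z - (b x z / d0) • y) = b x z % d0 := by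
        rw [map_sub, map_smul, smul_eq_mul, ← hd0, Int.emod_def]; ring
      by_contra h
      have h2 : b x z % d0 ≠ 0 := fun h' => h (Int.dvd_of_emod_eq_zero h')
      have h3 := hmin' x (z - (b x z / d0) • y) (by rw [h1]; exact h2)
      rw [h1] at h3
      have h4 := Int.emod_lt_abs (b x z) hxy
      have h5 := Int.emod_nonneg (b x z) hxy
      rw [Int.abs_eq_natAbs] at h4
      omega
    have hdvd2 : ∀ z, d0 ∣ b z y := by
      intro z
      have h1 : b (z - (b z y / d0) • x) y = b z y % d0 := by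
        rw [map_sub, map_smul, LinearMap.sub_apply, LinearMap.smul_apply, smul_eq_mul, ← hd0, Int.emod_def]; ring
      by_contra h
      have h2 : b z y % d0 ≠ 0 := fun h' => h (Int.dvd_of_emod_eq_zero h')
      have h3 := hmin' (z - (b z y / d0) • x) y (by rw [h1]; exact h2)
      rw [h1] at h3
      have h4 := Int.emod_lt_abs (b z y) hxy
      have h5 := Int.emod_nonneg (b z y) hxy
      rw [Int.abs_eq_natAbs] at h4
      omega
    -- the orthogonal complement
    let M' : Submodule ℤ M := LinearMap.ker (b x) ⊓ LinearMap.ker (b y)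
    have hM'1 : ∀ z : M', b x z = 0 := fun z => (Submodule.mem_inf.1 z.2).1
    have hM'2 : ∀ z : M', b y z = 0 := fun z => (Submodule.mem_inf.1 z.2).2
    let Φ : ((ℤ × ℤ) × M') →ₗ[ℤ] M :=
      (LinearMap.coprod (LinearMap.coprod (LinearMap.toSpanSingleton ℤ M x) (LinearMap.toSpanSingleton ℤ M y))
        M'.subtype)
    have hΦ : ∀ a c z, Φ ((a, c), z) = a • x + c • y + (z : M) := fun a c z => by
      simp [Φ]
    have hbx : ∀ a c (z : M'), b x (Φ ((a, c), z)) = c * d0 := by
      intro a c z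
      rw [hΦ, map_add, map_add, map_smul, map_smul, hb, hM'1, ← hd0]; simp
    have hby : ∀ a c (z : M'), b y (Φ ((a, c), z)) = - (a * d0) := by
      intro a c z
      rw [hΦ, map_add, map_add, map_smul, map_smul, hb, hM'2, hanti y x, ← hd0]; simp
    have hΦinj : Function.Injective Φ := by
      rw [← LinearMap.ker_eq_bot, LinearMap.ker_eq_bot']
      rintro ⟨⟨a, c⟩, z⟩ h
      have h1 := hbx a c z
      have h2 := hby a c z
      rw [h, map_zero] at h1 h2
      have hc : c = 0 := (mul_eq_zero.1 h1.symm).resolve_right hxy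
      have ha : a = 0 := (mul_eq_zero.1 (neg_eq_zero.1 h2.symm)).resolve_right hxy
      rw [hΦ, hc, ha, zero_smul, zero_smul, zero_add, zero_add] at h
      rw [hc, ha]
      have : z = 0 := Subtype.ext h
      rw [this]; rfl
    have hΦsurj : Function.Surjective Φ := by
      intro z
      obtain ⟨c, hc⟩ := hdvd1 z
      obtain ⟨a, ha⟩ := hdvd2 z
      refine ⟨((a, c), ⟨z - a • x - c • y, Submodule.mem_inf.2 ⟨?_, ?_⟩⟩), ?_⟩
      · rw [LinearMap.mem_ker, map_sub, map_sub, map_smul, map_smul, hb, hc, ← hd0]; simp; ring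
      · rw [LinearMap.mem_ker, map_sub, map_sub, map_smul, map_smul, hb, hanti y z, ha, hanti y x, ← hd0]; simp; ring
      · rw [hΦ]
        change a • x + c • y + (z - a • x - c • y) = z
        generalize a • x = p
        generalize c • y = q
        abel
    let Ψ : ((ℤ × ℤ) × M') ≃ₗ[ℤ] M := LinearEquiv.ofBijective Φ ⟨hΦinj, hΦsurj⟩
    have hfin : Module.finrank ℤ M' = 2 * g := by
      have h1 := Ψ.finrank_eq
      rw [Module.finrank_prod, Module.finrank_prod, Module.finrank_self, hM] at h1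
      omega
    let b' : M' →ₗ[ℤ] M' →ₗ[ℤ] ℤ := (b.domRestrict₁₂ M' M')
    have hb'a : ∀ z w : M', b' z w = b z w := fun z w => rfl
    obtain ⟨ψ', d', hψ'⟩ := ih M' hfin b' (fun z => hb z) (by
      intro z hz
      apply Subtype.ext
      refine hnd z fun w => ?_
      obtain ⟨⟨⟨a, c⟩, w'⟩, rfl⟩ := hΦsurj w
      rw [hΦ, map_add, map_add, map_smul, map_smul, hanti z x, hanti z y, hM'1, hM'2, ← hb'a, hz]
      simp)
    -- the new equivalence
    let e1 : ((Fin (g + 1) → ℤ) × (Fin (g + 1) → ℤ)) ≃ₗ[ℤ] ((ℤ × ℤ) × ((Fin g → ℤ) × (Fin g → ℤ))) :=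
      { toFun := fun p => ((p.1 0, p.2 0), (fun i => p.1 i.succ, fun i => p.2 i.succ))
        invFun := fun q => (Fin.cons q.1.1 q.2.1, Fin.cons q.1.2 q.2.2)
        map_add' := fun _ _ => rfl
        map_smul' := fun _ _ => rfl
        left_inv := fun p => by
          refine Prod.ext ?_ ?_
          · funext i; refine Fin.cases ?_ (fun i => ?_) i <;> simp
          · funext i; refine Fin.cases ?_ (fun i => ?_) i <;> simp
        right_inv := fun q => by simp }
    let e2 : ((ℤ × ℤ) × ((Fin g → ℤ) × (Fin g → ℤ))) ≃ₗ[ℤ] ((ℤ × ℤ) × M') :=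
      LinearEquiv.prodCongr (LinearEquiv.refl ℤ _) ψ'
    refine ⟨(e1.trans e2).trans Ψ, Fin.cons d0 d', fun p q => ?_⟩
    have hval : ∀ p, ((e1.trans e2).trans Ψ) p = Φ ((p.1 0, p.2 0), ψ' (fun i => p.1 i.succ, fun i => p.2 i.succ)) :=
      fun p => rfl
    rw [hval, hval]
    generalize hz : ψ' (fun i => p.1 i.succ, fun i => p.2 i.succ) = z
    generalize hw : ψ' (fun i => q.1 i.succ, fun i => q.2 i.succ) = w
    have h1 : b (z : M) (w : M) = stdF d' (fun i => p.1 i.succ, fun i => p.2 i.succ) (fun i => q.1 i.succ, fun i => q.2 i.succ) := by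
      rw [← hψ', hz, hw]; rfl
    have h2 : b (Φ ((p.1 0, p.2 0), z)) (Φ ((q.1 0, q.2 0), w)) = p.1 0 * (q.2 0 * d0) + p.2 0 * (- (q.1 0 * d0)) + b z w := by
      rw [hΦ (p.1 0) (p.2 0) z, map_add, map_add, map_smul, map_smul, LinearMap.add_apply, LinearMap.add_apply,
        LinearMap.smul_apply, LinearMap.smul_apply, hbx, hby, hΦ, map_add, map_add, map_smul, map_smul,
        hanti z x, hanti z y, hM'1, hM'2]
      simp
    rw [h2, h1, stdF, stdF, Fin.sum_univ_succ]
    simp only [Fin.cons_zero, Fin.cons_succ]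
    ring

/-- matrix version -/
theorem frob_matrix {I : Type v} [Fintype I] [DecidableEq I] (g : ℕ) (hI : Fintype.card I = 2 * g)
    (b : Matrix I I ℤ) (hb : Alt b) (hdet : b.det ≠ 0) :
    ∃ (d : Fin g → ℤ) (e f : Fin g → I → ℤ) (A B : Fin g → I → ℤ),
      (b = ∑ i, d i • wdg (e i) (f i)) ∧
      (∀ u v : I, (∑ i, A i u * e i v) + (∑ i, B i u * f i v) = if u = v then 1 else 0) ∧
      (∏ i, d i) ^ 2 ∣ b.det := by
  have hbx : ∀ x y : I → ℤ, (Matrix.toBilin' b) x y = x ⬝ᵥ (b *ᵥ y) := fun x y => by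
    rw [Matrix.toBilin'_apply']
  obtain ⟨ψ, d, hψ⟩ := frob g (I → ℤ) (by rw [Module.finrank_fintype_fun_eq_card, hI]) (Matrix.toBilin' b)
    (fun x => by rw [hbx]; exact alt_dot_self hb x) (fun x hx => by
      have h1 : b *ᵥ x = 0 := by
        funext u
        have h2 := hx (Pi.single u 1)
        rw [hbx, alt_dot hb, single_one_dotProduct] at h2
        exact neg_eq_zero.1 h2
      exact Matrix.eq_zero_of_mulVec_eq_zero hdet h1)
  let e : Fin g → I → ℤ := fun i u => (ψ.symm (Pi.single u 1)).1 i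
  let f : Fin g → I → ℤ := fun i u => (ψ.symm (Pi.single u 1)).2 i
  let A : Fin g → I → ℤ := fun i u => ψ (Pi.single i 1, 0) u
  let B : Fin g → I → ℤ := fun i u => ψ (0, Pi.single i 1) u
  have hmat : b = ∑ i, d i • wdg (e i) (f i) := by
    ext u v
    have h1 := hψ (ψ.symm (Pi.single u 1)) (ψ.symm (Pi.single v 1))
    rw [LinearEquiv.apply_symm_apply, LinearEquiv.apply_symm_apply, hbx, single_one_dotProduct,
      mulVec_single_one, Matrix.col_apply] at h1
    rw [h1, stdF, Matrix.sum_apply]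
    refine Finset.sum_congr rfl fun i _ => ?_
    simp only [Matrix.smul_apply, wdg, Matrix.of_apply, smul_eq_mul, e, f]
  refine ⟨d, e, f, A, B, hmat, ?_, ?_⟩
  · intro u v
    have h1 : ∀ p : (Fin g → ℤ) × (Fin g → ℤ), ψ p u = (∑ i, A i u * p.1 i) + ∑ i, B i u * p.2 i := by
      intro p
      have h2 : p = (∑ i, p.1 i • ((Pi.single i 1, 0) : (Fin g → ℤ) × (Fin g → ℤ))) +
          ∑ i, p.2 i • ((0, Pi.single i 1) : (Fin g → ℤ) × (Fin g → ℤ)) := by
        refine Prod.ext ?_ ?_
        · funext j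
          simp [Prod.fst_sum, Finset.sum_apply, Pi.single_apply]
        · funext j
          simp [Prod.snd_sum, Finset.sum_apply, Pi.single_apply]
      conv_lhs => rw [h2]
      rw [map_add, map_sum, map_sum, Pi.add_apply, Finset.sum_apply, Finset.sum_apply]
      congr 1
      · refine Finset.sum_congr rfl fun i _ => ?_
        rw [map_smul, Pi.smul_apply, smul_eq_mul, mul_comm]
      · refine Finset.sum_congr rfl fun i _ => ?_
        rw [map_smul, Pi.smul_apply, smul_eq_mul, mul_comm]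
    have h3 := h1 (ψ.symm (Pi.single v 1))
    rw [LinearEquiv.apply_symm_apply, Pi.single_apply] at h3
    exact h3.symm
  · obtain ⟨σ⟩ : Nonempty (I ≃ Fin g ⊕ Fin g) := by
      refine Fintype.card_eq.1 ?_
      rw [hI, Fintype.card_sum, Fintype.card_fin]; ring
    let M : Matrix I I ℤ := Matrix.of fun k v => Sum.elim e f (σ k) v
    let N : Matrix I I ℤ := Matrix.of fun k v => Sum.elim f (-e) (σ k) v
    let D : Matrix I I ℤ := Matrix.diagonal fun k => Sum.elim d d (σ k)
    have hM : b = M.transpose * (D * N) := by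
      rw [hmat]
      ext u v
      rw [Matrix.mul_apply, Matrix.sum_apply, ← Equiv.sum_comp σ.symm, Fintype.sum_sum_type,
        ← Finset.sum_add_distrib]
      refine Finset.sum_congr rfl fun i _ => ?_
      simp only [M, N, D, wdg, Matrix.transpose_apply, Matrix.of_apply, Equiv.apply_symm_apply, Sum.elim_inl,
        Sum.elim_inr, Pi.neg_apply, Matrix.smul_apply, Matrix.diagonal_mul, smul_eq_mul]
      ring
    have hD : D.det = (∏ i, d i) ^ 2 := by
      rw [Matrix.det_diagonal, ← Equiv.prod_comp σ.symm, Fintype.prod_sum_type]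
      simp only [Equiv.apply_symm_apply, Sum.elim_inl, Sum.elim_inr]
      rw [sq]
    rw [hM, Matrix.det_mul, Matrix.det_mul, hD]
    exact Dvd.dvd.mul_left (Dvd.intro _ rfl) _

end Pool.Agent.Y109.PI
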