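import Mathlib
import Pool.Agent.H47.L.R_seed8.H552R3.SymFinal

/-! The index over a finite extension. -/

set_option autoImplicit false
set_option linter.all false

open scoped TensorProduct
open Matrix

noncomputable section

namespace Pool.Agent.Y109.PI

open Pool.Agent.Helper346.Bra Pool.Agent.Helper18.Br Pool.Agent.H552R3.SymBr

universe u

/-- matrices act on column vectors -/
def colAct (D : Type u) [Ring D] (t : ℕ) : Matrix (Fin t) (Fin t) D →+* AddMonoid.End (Fin t → D) where
  toFun M := { toFun := fun v => M *ᵥ v, map_zero' := mulVec_zero _, map_add' := fun v w => mulVec_add _ _ _ }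
  map_one' := by
    ext v i
    change ((1 : Matrix (Fin t) (Fin t) D) *ᵥ v) i = v i
    rw [one_mulVec]
  map_zero' := by
    ext v i
    change ((0 : Matrix (Fin t) (Fin t) D) *ᵥ v) i = 0
    rw [zero_mulVec]
    rfl
  map_mul' M N := by
    ext v i
    change ((M * N) *ᵥ v) i = (M *ᵥ (N *ᵥ v)) i
    rw [mulVec_mulVec]
  map_add' M N := by
    ext v i
    change ((M + N) *ᵥ v) i = (M *ᵥ v + N *ᵥ v) i
    rw [add_mulVec]

/-- **The index of a class divides the degree of a finite extension times the index over the extension.** -/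
theorem IndDvd.of_res {F : Type u} (K : Type u) [Field F] [Field K] [Algebra F K] [FiniteDimensional F K]
    {β : BrauerGroup.{u, u} F} {N : ℕ} (h : IndDvd (res K β) N) : IndDvd β (Module.finrank F K * N) := by
  intro D _ _ _ _ hD
  haveI i1 : IsSimpleRing (K ⊗[F] D) := isSimple_base F K D
  haveI i2 : Algebra.IsCentral K (K ⊗[F] D) := isCentral_base F K D
  haveI := IsArtinianRing.of_finite K (K ⊗[F] D)
  obtain ⟨t, ht, D', _, _, _, ⟨e⟩⟩ := IsSimpleRing.exists_algEquiv_matrix_divisionRing_finite K (K ⊗[F] D)
  haveI := ht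
  have hc : Algebra.IsCentral K D' := by
    refine ⟨fun d hd => ?_⟩
    rw [Subalgebra.mem_center_iff] at hd
    have h1 : Matrix.scalar (Fin t) d ∈ Subalgebra.center K (Matrix (Fin t) (Fin t) D') := by
      rw [Subalgebra.mem_center_iff]
      intro M
      ext i j
      rw [Matrix.scalar_apply, Matrix.mul_diagonal, Matrix.diagonal_mul, hd]
    haveI : Algebra.IsCentral K (Matrix (Fin t) (Fin t) D') := Algebra.IsCentral.of_algEquiv K _ _ e
    have h2 := Algebra.IsCentral.out h1
    obtain ⟨c, hc⟩ := Algebra.mem_bot.1 h2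
    have h3 := congrFun (congrFun hc ⟨0, Nat.pos_of_ne_zero ht.out⟩) ⟨0, Nat.pos_of_ne_zero ht.out⟩
    rw [Matrix.scalar_apply, Matrix.diagonal_apply_eq, Matrix.algebraMap_matrix_apply, if_pos rfl] at h3
    exact Algebra.mem_bot.2 ⟨c, h3⟩
  have hres : res K β = brauerClass K (K ⊗[F] D) := by
    rw [← hD]; rfl
  have hD' : brauerClass K D' = res K β := by
    rw [hres]
    exact (brauerClass_eq_iff (A := K ⊗[F] D) (B := D')).2 (BrEq.of_matrix ht.out e) |>.symm
  have h1 := h D' hD'
  obtain ⟨m, hm⟩ := finrank_square (K := K) D'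
  obtain ⟨d, hd⟩ := finrank_square (K := F) D
  rw [hm, Nat.sqrt_eq'] at h1
  rw [hd, Nat.sqrt_eq']
  have h2 := e.toLinearEquiv.finrank_eq
  rw [Module.finrank_baseChange, Module.finrank_matrix, hd, hm, Fintype.card_fin] at h2
  have h3 : d = t * m := by
    have h4 : d ^ 2 = (t * m) ^ 2 := by rw [h2]; ring
    exact Nat.pow_left_injective (n := 2) (by norm_num) h4
  -- the column module
  letI : Module F D' := Module.compHom D' (algebraMap F K)
  letI : Algebra F D' := Algebra.compHom D' (algebraMap F K)
  haveI : IsScalarTower F K D' := IsScalarTower.of_algebraMap_eq (fun x => rfl)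
  let S := Fin t → D'
  let ρ : D →+* Matrix (Fin t) (Fin t) D' :=
    (e.toAlgHom.toRingHom).comp (Algebra.TensorProduct.includeRight : D →ₐ[F] K ⊗[F] D).toRingHom
  letI : Module D S := Module.compHom S ((colAct D' t).comp ρ)
  have hsm : ∀ (x : D) (s : S), x • s = ρ x *ᵥ s := fun x s => rfl
  have hρ : ∀ (f : F) (x : D), ρ (f • x) = (algebraMap F K f) • ρ x := by
    intro f x
    change e ((1 : K) ⊗ₜ[F] (f • x)) = algebraMap F K f • e ((1 : K) ⊗ₜ[F] x)
    rw [← map_smul]
    congr 1
    rw [TensorProduct.tmul_smul, TensorProduct.smul_tmul', TensorProduct.smul_tmul', Algebra.smul_def, smul_eq_mul]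
  haveI : IsScalarTower F D S := by
    refine ⟨fun f x s => ?_⟩
    rw [hsm, hsm, hρ]
    funext i
    change (((algebraMap F K f) • ρ x) *ᵥ s) i = (f • (ρ x *ᵥ s)) i
    rw [smul_mulVec]
    rfl
  haveI : Module.Free D S := inferInstance
  haveI : Module.Finite F D' := Module.Finite.trans K D'
  have h5 := Module.finrank_mul_finrank F D S
  have h6 : Module.finrank F S = Module.finrank F K * (t * m ^ 2) := by
    rw [← Module.finrank_mul_finrank F K S, Module.finrank_pi_fintype]
    simp only [hm, Finset.sum_const, Finset.card_univ, Fintype.card_fin, smul_eq_mul]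
  rw [hd, h6] at h5
  have hd0 : 0 < d := by
    have : 0 < Module.finrank F D := Module.finrank_pos
    rw [hd] at this
    exact Nat.pos_of_ne_zero (by rintro rfl; simp at this)
  have h7 : d * Module.finrank D S = Module.finrank F K * m := by
    have h8 : d * (d * Module.finrank D S) = d * (Module.finrank F K * m) := by
      rw [← mul_assoc, ← sq, h5]
      conv_rhs => rw [h3]
      ring
    exact Nat.eq_of_mul_eq_mul_left hd0 h8
  exact (Dvd.intro _ h7).trans (Nat.mul_dvd_mul_left _ h1)

end Pool.Agent.Y109.PI
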