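import Mathlib
import Pool.Agent.H47.L.R_seed8.Y109.PI.Sym
import Pool.Agent.H47.L.R_seed8.Y109.PI.Res

/-! Killing the degenerate part by adjoining roots. -/

set_option autoImplicit false
set_option linter.all false

open scoped TensorProduct
open Matrix

noncomputable section

namespace Pool.Agent.Y109.PI

open Pool.Agent.Helper346.Bra Pool.Agent.Helper18.Br Pool.Agent.H552R3.SymBr Pool.Agent.H552R3.SymPred
  Pool.Agent.H552R3.Tsen

universe u

theorem symCl_congr {K : Type u} [Field K] {n : ℕ} {ζ ζ' : K} (hn : 0 < n) (h1 : IsPrimitiveRoot ζ n)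
    (h2 : IsPrimitiveRoot ζ' n) (h : ζ = ζ') (a b : Kˣ) : symCl hn h1 a b = symCl hn h2 a b := by
  subst h; rfl

/-- adjoining a root of prime order -/
theorem exists_root {K : Type u} [Field K] (q : ℕ) (hq : q.Prime) (a : Kˣ) :
    ∃ (K' : Type u) (_ : Field K') (_ : Algebra K K') (_ : FiniteDimensional K K'),
      Module.finrank K K' ∣ q ∧ ∃ c : K'ˣ, c ^ q = ι K' a := by
  by_cases h : ∃ b : K, b ^ q = (a : K)
  · obtain ⟨b, hb⟩ := h
    have hb0 : b ≠ 0 := by
      rintro rfl
      rw [zero_pow hq.ne_zero] at hb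
      exact a.ne_zero hb.symm
    refine ⟨K, inferInstance, inferInstance, inferInstance, by rw [Module.finrank_self]; exact one_dvd _,
      Units.mk0 b hb0, ?_⟩
    ext
    rw [Units.val_pow_eq_pow_val, Units.val_mk0, hb]
    rfl
  · push Not at h
    have hirr : Irreducible (Polynomial.X ^ q - Polynomial.C (a : K)) := X_pow_sub_C_irreducible_of_prime hq h
    haveI : Fact (Irreducible (Polynomial.X ^ q - Polynomial.C (a : K))) := ⟨hirr⟩
    have hfin : FiniteDimensional K (AdjoinRoot (Polynomial.X ^ q - Polynomial.C (a : K))) :=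
      (AdjoinRoot.powerBasis hirr.ne_zero).finite
    have hroot : (AdjoinRoot.root (Polynomial.X ^ q - Polynomial.C (a : K))) ^ q = algebraMap K _ (a : K) := by
      have h1 := AdjoinRoot.eval₂_root (Polynomial.X ^ q - Polynomial.C (a : K))
      rw [Polynomial.eval₂_sub, Polynomial.eval₂_pow, Polynomial.eval₂_X, Polynomial.eval₂_C, sub_eq_zero] at h1
      exact h1
    have hc0 : AdjoinRoot.root (Polynomial.X ^ q - Polynomial.C (a : K)) ≠ 0 := by
      intro h0
      rw [h0, zero_pow hq.ne_zero] at hroot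
      exact a.ne_zero ((map_eq_zero _).1 hroot.symm)
    refine ⟨AdjoinRoot (Polynomial.X ^ q - Polynomial.C (a : K)), inferInstance, inferInstance, hfin, ?_,
      Units.mk0 _ hc0, ?_⟩
    · rw [(AdjoinRoot.powerBasis hirr.ne_zero).finrank, AdjoinRoot.powerBasis_dim,
        Polynomial.natDegree_X_pow_sub_C]
    · ext
      rw [Units.val_pow_eq_pow_val, Units.val_mk0, hroot]
      rfl

variable {k : Type u} [Field k] {n : ℕ} (hn : 0 < n) {ζ : k} (hζ : IsPrimitiveRoot ζ n)

/-- the group generated by symbols with entries in `L` -/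
def VL (K : Type u) [Field K] [Algebra k K] (L : IntermediateField k K) : Subgroup (BrauerGroup.{u, u} K) :=
  Subgroup.closure {γ | ∃ a b : Kˣ, (a : K) ∈ L ∧ (b : K) ∈ L ∧ γ = symCl hn (rootK K hζ) a b}

/-- the index bound over the base fields -/
def Base (e m : ℕ) : Prop := ∀ (M : Type u) [Field M] [Algebra k M], Algebra.trdeg k M ≤ e →
  ∀ β ∈ Subgroup.closure {γ : BrauerGroup.{u, u} M | ∃ a b : Mˣ, γ = symCl hn (rootK M hζ) a b}, IndDvd β m

theorem VL_ind {e m : ℕ} (hm : 0 < m) (hbase : Base hn hζ e m) (K : Type u) [Field K] [Algebra k K]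
    (L : IntermediateField k K) (hL : Algebra.trdeg k L ≤ e) : ∀ γ ∈ VL hn hζ K L, IndDvd γ m := by
  have hle : VL hn hζ K L ≤ (Subgroup.closure {γ : BrauerGroup.{u, u} L | ∃ a b : Lˣ,
      γ = symCl hn (rootK L hζ) a b}).map (res K) := by
    rw [VL, Subgroup.closure_le]
    rintro γ ⟨a, b, ha, hb, rfl⟩
    have ha0 : (⟨(a : K), ha⟩ : L) ≠ 0 := fun h => a.ne_zero (congrArg Subtype.val h)
    have hb0 : (⟨(b : K), hb⟩ : L) ≠ 0 := fun h => b.ne_zero (congrArg Subtype.val h)
    refine ⟨symCl hn (rootK L hζ) (Units.mk0 _ ha0) (Units.mk0 _ hb0),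
      Subgroup.subset_closure ⟨_, _, rfl⟩, ?_⟩
    rw [res_symCl]
    have e1 : ι K (Units.mk0 _ ha0) = a := by ext; rfl
    have e2 : ι K (Units.mk0 _ hb0) = b := by ext; rfl
    rw [e1, e2]
    exact symCl_congr hn _ _ rfl a b
  intro γ hγ
  obtain ⟨β, hβ, rfl⟩ := hle hγ
  exact IndDvd.res hm (hbase L hL β hβ)

/-- the algebraic closure of an intermediate field in an extension -/
def acl {K : Type u} [Field K] [Algebra k K] (L : IntermediateField k K) (K' : Type u) [Field K'] [Algebra K K']
    [Algebra k K'] [IsScalarTower k K K'] : IntermediateField k K' :=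
  (algebraicClosure L K').restrictScalars k

theorem mem_acl {K : Type u} [Field K] [Algebra k K] (L : IntermediateField k K) (K' : Type u) [Field K'] [Algebra K K']
    [Algebra k K'] [IsScalarTower k K K'] (x : K') : x ∈ acl L K' ↔ IsAlgebraic L x := by
  rw [acl, IntermediateField.mem_restrictScalars, mem_algebraicClosure_iff]

theorem trdeg_acl {K : Type u} [Field K] [Algebra k K] (L : IntermediateField k K) (K' : Type u) [Field K'] [Algebra K K']
    [Algebra k K'] [IsScalarTower k K K'] : Algebra.trdeg k (acl L K') = Algebra.trdeg k L := by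
  change Algebra.trdeg k (algebraicClosure L K') = _
  rw [← trdeg_add_eq k L (A := algebraicClosure L K'), trdeg_eq_zero (R := L) (A := algebraicClosure L K'), add_zero]

theorem map_mem_acl {K : Type u} [Field K] [Algebra k K] (L : IntermediateField k K) (K' : Type u) [Field K'] [Algebra K K']
    [Algebra k K'] [IsScalarTower k K K'] (x : K) (hx : x ∈ L) : algebraMap K K' x ∈ acl L K' := by
  rw [mem_acl]
  exact isAlgebraic_algebraMap (⟨x, hx⟩ : L)

theorem root_mem_acl {K : Type u} [Field K] [Algebra k K] (L : IntermediateField k K) (K' : Type u) [Field K'] [Algebra K K']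
    [Algebra k K'] [IsScalarTower k K K'] (x : K) (hx : x ∈ L) (c : K') (q : ℕ) (hq : 0 < q)
    (hc : c ^ q = algebraMap K K' x) : c ∈ acl L K' := by
  rw [mem_acl]
  refine IsAlgebraic.of_pow hq ?_
  rw [hc]
  exact isAlgebraic_algebraMap (⟨x, hx⟩ : L)

variable (k)

/-- the terms -/
def term {K : Type u} [Field K] [Algebra k K] {g : ℕ} (E F a a' : Fin g → Kˣ) (t r : Fin g → ℕ) (u : Fin g → ℤ)
    (hζ : IsPrimitiveRoot ζ n) (i : Fin g) : BrauerGroup.{u, u} K :=
  symCl hn (rootK K hζ) (E i) (F i) ^ (((t i * r i : ℕ) : ℤ) * u i) * symCl hn (rootK K hζ) (a i) (E i) ^ (t i) *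
    symCl hn (rootK K hζ) (a' i) (F i)

variable {k}

/-- **Adjoining roots.** -/
theorem tower {e m : ℕ} (hm : 0 < m) (hbase : Base hn hζ e m) (g : ℕ) (u u' : Fin g → ℤ)
    (hu : ∀ i, (n : ℤ) ∣ u i * u' i - 1) : ∀ (R : ℕ), 0 < R → ∀ (K : Type u) [Field K] [Algebra k K]
    (L : IntermediateField k K), Algebra.trdeg k L ≤ e → ∀ (E F a a' : Fin g → Kˣ), (∀ i, (a i : K) ∈ L) →
    (∀ i, (a' i : K) ∈ L) → ∀ (t r : Fin g → ℕ), ∏ i, r i = R → ∀ γ ∈ VL hn hζ K L,
    IndDvd ((∏ i, term k hn E F a a' t r u hζ i) * γ) (R * (n ^ g * m)) := by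
  intro R
  induction R using Nat.strong_induction_on with
  | _ R ih =>
  intro hR K _ _ L hL E F a a' ha ha' t r hr γ hγ
  by_cases hR1 : R = 1
  · -- base case
    have hr1 : ∀ i, r i = 1 := fun i => by
      have h1 : r i ∣ 1 := by
        rw [← hR1, ← hr]
        exact Finset.dvd_prod_of_mem _ (Finset.mem_univ i)
      exact Nat.dvd_one.1 h1
    have hterm : ∀ i, term k hn E F a a' t r u hζ i =
        symCl hn (rootK K hζ) (E i ^ (t i) * a' i ^ (u' i)) (F i ^ (u i) * (a i)⁻¹) *
          symCl hn (rootK K hζ) (a' i) (a i) ^ (u' i) := by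
      intro i
      rw [term, hr1, mul_one]
      have e1 : ∀ x y : Kˣ, symCl hn (rootK K hζ) x y = symHom hn (rootK K hζ) x y := fun x y => rfl
      simp only [e1, map_mul, MonoidHom.mul_apply, map_pow, map_zpow, map_inv, MonoidHom.pow_apply,
        MonoidHom.zpow_apply]
      have h2 : (symHom hn (rootK K hζ) (a' i) (F i) ^ u' i) ^ u i = symHom hn (rootK K hζ) (a' i) (F i) := by
        rw [← _root_.zpow_mul]
        obtain ⟨c, hc⟩ := hu i
        have e2 : u' i * u i = 1 + n * c := by rw [← hc]; ring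
        rw [e2, _root_.zpow_add, zpow_one, _root_.zpow_mul, zpow_natCast, ← e1, symCl_tors, _root_.one_zpow, mul_one]
      have h3 : (symHom hn (rootK K hζ) (E i) (F i) ^ t i) ^ u i =
          symHom hn (rootK K hζ) (E i) (F i) ^ ((t i : ℤ) * u i) := by
        rw [_root_.zpow_mul, zpow_natCast]
      have h4 : symHom hn (rootK K hζ) (a i) (E i) = (symHom hn (rootK K hζ) (E i) (a i))⁻¹ :=
        symCl_anti hn (rootK K hζ) _ _
      rw [_root_.mul_zpow, h2, h3, h4]
      simp only [mul_inv, inv_pow, _root_.inv_zpow]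
      generalize symHom hn (rootK K hζ) (E i) (F i) ^ ((t i : ℤ) * u i) = p
      generalize symHom hn (rootK K hζ) (a' i) (F i) = q
      generalize (symHom hn (rootK K hζ) (E i) (a i) ^ t i)⁻¹ = x
      generalize symHom hn (rootK K hζ) (a' i) (a i) ^ u' i = y
      calc p * x * q = p * q * x * (y⁻¹ * y) := by
            rw [inv_mul_cancel, mul_one]; simp only [mul_assoc, mul_comm, mul_left_comm]
        _ = p * q * (x * y⁻¹) * y := by simp only [mul_assoc]
        _ = _ := by simp only [mul_assoc, mul_comm, mul_left_comm]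
    have h5 : (∏ i, term k hn E F a a' t r u hζ i) * γ =
        (∏ i, symCl hn (rootK K hζ) (E i ^ (t i) * a' i ^ (u' i)) (F i ^ (u i) * (a i)⁻¹)) *
          ((∏ i, symCl hn (rootK K hζ) (a' i) (a i) ^ (u' i)) * γ) := by
      rw [← mul_assoc, ← Finset.prod_mul_distrib]
      congr 1
      exact Finset.prod_congr rfl fun i _ => hterm i
    have h6 : (∏ i, symCl hn (rootK K hζ) (a' i) (a i) ^ (u' i)) * γ ∈ VL hn hζ K L :=
      Subgroup.mul_mem _ (Subgroup.prod_mem _ fun i _ => Subgroup.zpow_mem _
        (Subgroup.subset_closure (Set.mem_setOf_eq ▸ ⟨a' i, a i, ha' i, ha i, rfl⟩)) _) hγ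
    rw [h5, hR1, one_mul]
    exact ((hasRep_prod hn (rootK K hζ) g _ _).mul ((VL_ind hn hζ hm hbase K L hL _ h6).hasRep hm)).indDvd
  · -- adjoin a root of prime order
    have hq : (R.minFac).Prime := Nat.minFac_prime hR1
    obtain ⟨i0, -, hi0⟩ := (Prime.dvd_finsetProd_iff hq.prime r).1 (by rw [hr]; exact Nat.minFac_dvd R)
    obtain ⟨r', hr'⟩ := hi0
    set q := R.minFac with hqdef
    obtain ⟨K', _, _, _, hfin, c, hc⟩ := exists_root q hq (a i0)
    letI : Algebra k K' := ((algebraMap K K').comp (algebraMap k K)).toAlgebra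
    haveI : IsScalarTower k K K' := IsScalarTower.of_algebraMap_eq (fun _ => rfl)
    let L' := acl L K'
    let r1 : Fin g → ℕ := Function.update r i0 r'
    let t1 : Fin g → ℕ := Function.update t i0 (t i0 * q)
    let a1 : Fin g → K'ˣ := Function.update (fun i => ι K' (a i)) i0 c
    have hRq : R = q * ∏ i, r1 i := by
      rw [← hr, Finset.prod_update_of_mem (Finset.mem_univ i0), ← mul_assoc, ← hr', ← Finset.erase_eq,
        Finset.mul_prod_erase _ _ (Finset.mem_univ i0)]
    have hR1' : 0 < ∏ i, r1 i := Nat.pos_of_ne_zero (fun h => by rw [h, mul_zero] at hRq; omega)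
    have hlt : ∏ i, r1 i < R := by
      have h1 : 1 * ∏ i, r1 i < q * ∏ i, r1 i := Nat.mul_lt_mul_of_pos_right hq.one_lt hR1'
      rw [one_mul, ← hRq] at h1
      exact h1
    have hcL : ((c : K'ˣ) : K') ∈ L' := by
      refine root_mem_acl L K' (a i0 : K) (ha i0) _ q hq.pos ?_
      have := congrArg Units.val hc
      rw [Units.val_pow_eq_pow_val] at this
      exact this
    have hres0 : ∀ x y : Kˣ, res K' (symCl hn (rootK K hζ) x y) = symCl hn (rootK K' hζ) (ι K' x) (ι K' y) := by
      intro x y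
      rw [res_symCl]
    have hγ' : res K' γ ∈ VL hn hζ K' L' := by
      have hle : (VL hn hζ K L).map (res K') ≤ VL hn hζ K' L' := by
        rw [Subgroup.map_le_iff_le_comap, VL, Subgroup.closure_le]
        rintro _ ⟨x, y, hx, hy, rfl⟩
        rw [SetLike.mem_coe, Subgroup.mem_comap, hres0]
        exact Subgroup.subset_closure ⟨_, _, map_mem_acl L K' _ hx, map_mem_acl L K' _ hy, rfl⟩
      exact hle ⟨γ, hγ, rfl⟩
    have key := ih _ hlt hR1' K' L' (by rw [trdeg_acl]; exact hL) (fun i => ι K' (E i)) (fun i => ι K' (F i)) a1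
      (fun i => ι K' (a' i)) (by
        intro i
        by_cases hi : i = i0
        · subst hi; simp only [a1, Function.update_self]; exact hcL
        · simp only [a1, Function.update_of_ne hi]; exact map_mem_acl L K' _ (ha i))
      (fun i => map_mem_acl L K' _ (ha' i)) t1 r1 rfl (res K' γ) hγ'
    have hprod : (∏ i, term k hn (fun i => ι K' (E i)) (fun i => ι K' (F i)) a1 (fun i => ι K' (a' i)) t1 r1 u hζ i) *
        res K' γ = res K' ((∏ i, term k hn E F a a' t r u hζ i) * γ) := by
      rw [map_mul, map_prod]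
      congr 1
      refine Finset.prod_congr rfl fun i _ => ?_
      rw [term, term, map_mul, map_mul, map_zpow, map_pow, hres0, hres0, hres0]
      congr 2
      · by_cases hi : i = i0
        · subst hi
          have e1 : t1 i * r1 i = t i * r i := by
            simp only [t1, r1, Function.update_self]; rw [hr']; ring
          rw [e1]
        · have e1 : t1 i * r1 i = t i * r i := by
            simp only [t1, r1, Function.update_of_ne hi]
          rw [e1]
      · by_cases hi : i = i0
        · subst hi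
          simp only [a1, t1, Function.update_self]
          rw [← hc]
          have e1 : symCl hn (rootK K' hζ) (c ^ q) (ι K' (E i)) = symCl hn (rootK K' hζ) c (ι K' (E i)) ^ q := by
            change symL hn (rootK K' hζ) (ι K' (E i)) (c ^ q) = _
            rw [map_pow]; rfl
          rw [e1, ← pow_mul, mul_comm q]
        · simp only [a1, t1, Function.update_of_ne hi]
    rw [hprod] at key
    have h7 := IndDvd.of_res K' key
    intro D _ _ _ _ hD
    refine (h7 D hD).trans ?_
    rw [hRq, mul_assoc]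
    exact Nat.mul_dvd_mul_right hfin _

end Pool.Agent.Y109.PI
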